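import Mathlib

/-!
# Isometric centers of plane graphs: definitions

Plane graphs are drawn in the plane `ℂ` with arbitrary arcs (injective continuous images of the
unit interval) as edges. Faces are the connected components of the complement of the drawing.
-/

namespace Pool.Agent.H77.ISO

/-- `A` is an arc with end points `a` and `b`. -/
def IsArc (a b : ℂ) (A : Set ℂ) : Prop :=
  ∃ γ : unitInterval → ℂ, Continuous γ ∧ Function.Injective γ ∧ γ 0 = a ∧ γ 1 = b ∧
    Set.range γ = A

/-- A plane graph with vertex type `V`: a simple graph together with a drawing in the plane `ℂ`.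
Distinct vertices are distinct points, every edge is an arc joining its two end vertices,
two distinct edges meet only in common end vertices, and an edge contains no vertex other than
its two ends. -/
structure PlaneGraph (V : Type*) where
  /-- the underlying simple graph -/
  graph : SimpleGraph V
  /-- the position of a vertex -/
  pos : V → ℂ
  /-- the arc that draws an edge (only used for pairs that are edges) -/
  arc : Sym2 V → Set ℂ
  pos_injective : Function.Injective pos
  isArc : ∀ v w, graph.Adj v w → IsArc (pos v) (pos w) (arc s(v, w))
  arc_inter : ∀ e ∈ graph.edgeSet, ∀ f ∈ graph.edgeSet, e ≠ f →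
    ∀ z ∈ arc e, z ∈ arc f → ∃ v, v ∈ e ∧ v ∈ f ∧ pos v = z
  arc_vertex : ∀ e ∈ graph.edgeSet, ∀ v, pos v ∈ arc e → v ∈ e

variable {V W : Type*}

/-- The point set of the drawing: all vertices and all edges. -/
def PlaneGraph.drawing (G : PlaneGraph V) : Set ℂ :=
  Set.range G.pos ∪ ⋃ e ∈ G.graph.edgeSet, G.arc e

/-- The faces of a plane graph are the connected components of the complement of the drawing. -/
def PlaneGraph.IsFace (G : PlaneGraph V) (F : Set ℂ) : Prop :=
  ∃ p ∈ G.drawingᶜ, F = connectedComponentIn G.drawingᶜ p

/-- The vertices on the boundary of a face. -/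
def PlaneGraph.bdry (G : PlaneGraph V) (F : Set ℂ) : Set V := {v | G.pos v ∈ frontier F}

/-- `u` is quasi-eccentric to the vertex set `S`: no vertex `v` is farther than `u` from every
vertex of `S`. -/
def QuasiEccentric (H : SimpleGraph V) (u : V) (S : Set V) : Prop :=
  ¬ ∃ v, ∀ x ∈ S, H.dist u x < H.dist v x

/-- The face condition: every vertex is quasi-eccentric to the boundary of some face. -/
def FaceCondition (H : PlaneGraph V) : Prop :=
  ∀ u, ∃ F, H.IsFace F ∧ QuasiEccentric H.graph u (H.bdry F)

/-- 2-connected: at least three vertices, connected, and still connected after deleting any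
vertex. -/
def TwoConnected (H : SimpleGraph V) : Prop :=
  3 ≤ Nat.card V ∧ H.Connected ∧ ∀ v, (H.induce {v}ᶜ).Connected

/-- `ι` identifies the plane graph `H` with a plane subgraph of `G` (same points, same arcs)
which is the center of `G` (the subgraph induced by the vertices of minimum eccentricity) and
which is an isometric subgraph of `G`. -/
structure IsIsometricCenter (H : PlaneGraph V) (G : PlaneGraph W) (ι : V → W) : Prop where
  injective : Function.Injective ι
  pos_eq : ∀ v, G.pos (ι v) = H.pos v
  arc_eq : ∀ v w, H.graph.Adj v w → G.arc s(ι v, ι w) = H.arc s(v, w)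
  adj_iff : ∀ v w, G.graph.Adj (ι v) (ι w) ↔ H.graph.Adj v w
  center : G.graph.center = Set.range ι
  isometric : ∀ v w, G.graph.dist (ι v) (ι w) = H.graph.dist v w

end Pool.Agent.H77.ISO
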