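import Mathlib
import Pool.Agent.H77.ISO.Defs

/-!
# The plane graph H with 30 vertices

All edges are straight segments between points with integer coordinates.
-/

namespace Pool.Agent.H77.ISO

/-- the edges -/
def E : List (Fin 30 × Fin 30) :=
  [(0, 5), (0, 6), (0, 11), (1, 2), (1, 6), (2, 7), (2, 8), (3, 4), (3, 8), (4, 9), (4, 10), (5,
   10), (6, 14), (6, 24), (7, 29), (8, 16), (8, 25), (9, 27), (10, 12), (10, 26), (11, 28), (12,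
   13), (12, 20), (12, 21), (12, 24), (13, 18), (14, 15), (14, 18), (14, 22), (14, 25), (15,
   19), (16, 17), (16, 19), (16, 23), (16, 26), (17, 20), (21, 28), (22, 29), (23, 27)]

/-- first coordinates -/
def X (v : Fin 30) : ℤ :=
  [8, 12, 12, 8, 4, 4, 12, 15, 12, 3, 0, 6, 0, 8, 24, 20, 0, -4, 16, 12, -4, 2, 21, 1, 6, 18, 0,
   2, 4, 18].getD v.val 0

/-- second coordinates -/
def Y (v : Fin 30) : ℤ :=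
  [4, 4, 8, 12, 12, 8, 0, 6, 12, 15, 12, 3, 0, -4, 0, 8, 24, 20, -4, 16, 12, 1, 2, 21, 0, 6, 18,
   18, 2, 4].getD v.val 0

/-- neighbours -/
def N (v : Fin 30) : List (Fin 30) :=
  ([[5, 6, 11], [2, 6], [1, 7, 8], [4, 8], [3, 9, 10], [0, 10], [0, 1, 14, 24], [2, 29], [2, 3,
   16, 25], [4, 27], [4, 5, 12, 26], [0, 28], [10, 13, 20, 21, 24], [12, 18], [6, 15, 18, 22,
   25], [14, 19], [8, 17, 19, 23, 26], [16, 20], [13, 14], [15, 16], [12, 17], [12, 28], [14,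
   29], [16, 27], [6, 12], [8, 14], [10, 16], [9, 23], [11, 21], [7, 22]] : List (List (Fin
   30))).getD v.val []

/-- the distance table -/
def D (v w : Fin 30) : ℕ :=
  ([[0, 2, 3, 4, 3, 1, 1, 4, 4, 4, 2, 1, 3, 4, 2, 3, 4, 5, 3, 4, 4, 3, 3, 5, 2, 3, 3, 5, 2, 4],
   [2, 0, 1, 3, 4, 3, 1, 2, 2, 5, 4, 3, 3, 4, 2, 3, 3, 4, 3, 4, 4, 4, 3, 4, 2, 3, 4, 5, 4, 3],
   [3, 1, 0, 2, 3, 4, 2, 1, 1, 4, 4, 4, 4, 5, 3, 4, 2, 3, 4, 3, 4, 5, 3, 3, 3, 2, 3, 4, 5, 2],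
   [4, 3, 2, 0, 1, 3, 4, 3, 1, 2, 2, 5, 3, 4, 3, 4, 2, 3, 4, 3, 4, 4, 4, 3, 4, 2, 3, 3, 5, 4],
   [3, 4, 3, 1, 0, 2, 4, 4, 2, 1, 1, 4, 2, 3, 4, 5, 3, 4, 4, 4, 3, 3, 5, 3, 3, 3, 2, 2, 4, 5],
   [1, 3, 4, 3, 2, 0, 2, 5, 4, 3, 1, 2, 2, 3, 3, 4, 3, 4, 4, 4, 3, 3, 4, 4, 3, 4, 2, 4, 3, 5],
   [1, 1, 2, 4, 4, 2, 0, 3, 3, 5, 3, 2, 2, 3, 1, 2, 4, 4, 2, 3, 3, 3, 2, 5, 1, 2, 4, 6, 3, 3],
   [4, 2, 1, 3, 4, 5, 3, 0, 2, 5, 5, 5, 5, 5, 3, 4, 3, 4, 4, 4, 5, 6, 2, 4, 4, 3, 4, 5, 6, 1],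
   [4, 2, 1, 1, 2, 4, 3, 2, 0, 3, 3, 5, 4, 4, 2, 3, 1, 2, 3, 2, 3, 5, 3, 2, 4, 1, 2, 3, 6, 3],
   [4, 5, 4, 2, 1, 3, 5, 5, 3, 0, 2, 5, 3, 4, 5, 5, 3, 4, 5, 4, 4, 4, 6, 2, 4, 4, 3, 1, 5, 6],
   [2, 4, 4, 2, 1, 1, 3, 5, 3, 2, 0, 3, 1, 2, 4, 4,
   2, 3, 3, 3, 2, 2, 5, 3, 2, 4, 1, 3, 3, 6],
   [1, 3, 4, 5, 4, 2, 2, 5, 5, 5, 3, 0, 3, 4, 3, 4, 5, 5, 4, 5, 4, 2, 4, 6, 3, 4, 4, 6, 1, 5],
   [3, 3, 4, 3, 2, 2, 2, 5, 4, 3, 1, 3, 0, 1, 3, 4, 3, 2, 2, 4, 1, 1, 4, 4, 1, 4, 2, 4, 2, 5],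
   [4, 4, 5, 4, 3, 3, 3, 5, 4, 4, 2, 4, 1, 0, 2, 3, 4, 3, 1, 4, 2, 2, 3, 5, 2, 3, 3, 5, 3, 4],
   [2, 2, 3, 3, 4, 3, 1, 3, 2, 5, 4, 3, 3, 2, 0, 1, 3, 4, 1, 2, 4, 4, 1, 4, 2, 1, 4, 5, 4, 2],
   [3, 3, 4, 4, 5, 4, 2, 4, 3, 5, 4, 4, 4, 3, 1, 0, 2, 3, 2, 1, 4, 5, 2, 3, 3, 2, 3, 4, 5, 3],
   [4, 3, 2, 2, 3, 3, 4, 3, 1, 3, 2, 5, 3, 4, 3, 2, 0, 1, 4, 1, 2, 4, 4, 1, 4, 2, 1, 2, 5, 4],
   [5, 4, 3, 3, 4, 4, 4, 4, 2, 4, 3, 5, 2, 3, 4, 3, 1, 0, 4, 2, 1, 3, 5, 2, 3, 3, 2, 3, 4, 5],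
   [3, 3, 4, 4, 4, 4, 2, 4, 3, 5, 3, 4, 2, 1, 1, 2, 4, 4, 0, 3, 3, 3, 2, 5, 3, 2, 4, 6, 4, 3],
   [4, 4, 3, 3, 4, 4, 3, 4, 2, 4, 3, 5, 4, 4, 2, 1, 1, 2, 3, 0, 3, 5, 3, 2, 4, 3, 2, 3, 6, 4],
   [4, 4, 4, 4, 3, 3, 3, 5, 3, 4, 2, 4, 1, 2, 4, 4, 2, 1, 3, 3, 0, 2, 5, 3, 2, 4, 3, 4, 3, 6],
  
   [3, 4, 5, 4, 3, 3, 3, 6, 5, 4, 2, 2, 1, 2, 4, 5, 4, 3, 3, 5, 2, 0, 5, 5, 2, 5, 3, 5, 1, 6],
   [3, 3, 3, 4, 5, 4, 2, 2, 3, 6, 5, 4, 4, 3, 1, 2, 4, 5, 2, 3, 5, 5, 0, 5, 3, 2, 5, 6, 5, 1],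
   [5, 4, 3, 3, 3, 4, 5, 4, 2, 2, 3, 6, 4, 5, 4, 3, 1, 2, 5, 2, 3, 5, 5, 0, 5, 3, 2, 1, 6, 5],
   [2, 2, 3, 4, 3, 3, 1, 4, 4, 4, 2, 3, 1, 2, 2, 3, 4, 3, 3, 4, 2, 2, 3, 5, 0, 3, 3, 5, 3, 4],
   [3, 3, 2, 2, 3, 4, 2, 3, 1, 4, 4, 4, 4, 3, 1, 2, 2, 3, 2, 3, 4, 5, 2, 3, 3, 0, 3, 4, 5, 3],
   [3, 4, 3, 3, 2, 2, 4, 4, 2, 3, 1, 4, 2, 3, 4, 3, 1, 2, 4, 2, 3, 3, 5, 2, 3, 3, 0, 3, 4, 5],
   [5, 5, 4, 3, 2, 4, 6, 5, 3, 1, 3, 6, 4, 5, 5, 4, 2, 3, 6, 3, 4, 5, 6, 1, 5, 4, 3, 0, 6, 6],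
   [2, 4, 5, 5, 4, 3, 3, 6, 6, 5, 3, 1, 2, 3, 4, 5, 5, 4, 4, 6, 3, 1, 5, 6, 3, 5, 4, 6, 0, 6],
   [4, 3, 2, 4, 5, 5, 3, 1, 3, 6, 6, 5, 5, 4, 2, 3, 4, 5, 3, 4, 6, 6, 1, 5, 4, 3, 5, 6, 6, 0]].getD v.val []).getD w.val 0

/-- distances from a root after deleting the first argument -/
def R (v w : Fin 30) : ℕ :=
  ([[0, 0, 1, 3, 4, 5, 1, 2, 2, 5, 4, 6, 3, 4, 2, 3, 3, 4, 3, 4, 4, 4, 3, 4, 2, 3, 4, 5, 5, 3],
   [0, 0, 5, 4, 3, 1, 1, 5, 4, 4, 2, 1, 3, 4, 2, 3, 4, 5, 3, 4, 4, 3, 3, 5, 2, 3, 3, 5, 2, 4],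
   [0, 2, 0, 4, 3, 1, 1, 5, 4, 4, 2, 1, 3, 4, 2, 3, 4, 5, 3, 4, 4, 3, 3, 5, 2, 3, 3, 5, 2, 4],
   [0, 2, 3, 0, 3, 1, 1, 4, 4, 4, 2, 1, 3, 4, 2, 3, 4, 5, 3, 4, 4, 3, 3, 5, 2, 3, 3, 5, 2, 4],
   [0, 2, 3, 5, 0, 1, 1, 4, 4, 7, 2, 1, 3, 4, 2, 3, 4, 5, 3, 4, 4, 3, 3, 5, 2, 3, 3, 6, 2, 4],
   [0, 2, 3, 5, 5, 0, 1, 4, 4, 6, 4, 1, 3, 4, 2, 3, 5, 5, 3, 4, 4, 3, 3, 6, 2, 3, 5, 7, 2, 4],
   [0, 7, 6, 4, 3, 1, 0, 7, 5, 4, 2, 1, 3, 4, 6, 6, 4, 5, 5, 5, 4, 3, 7, 5, 4, 6, 3, 5, 2, 8],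
   [0, 2, 3, 4, 3, 1, 1, 0, 4, 4, 2, 1, 3, 4, 2, 3, 4, 5, 3, 4, 4, 3, 3, 5, 2, 3, 3, 5, 2, 4],
   [0, 2, 3, 4, 3, 1, 1, 4, 0, 4, 2, 1, 3, 4, 2, 3, 4, 5, 3, 4, 4, 3, 3, 5, 2, 3, 3, 5, 2, 4],
   [0, 2, 3, 4, 3, 1, 1, 4, 4, 0, 2, 1, 3, 4, 2, 3, 4, 5, 3, 4, 4, 3, 3, 5, 2, 3, 3, 6, 2, 4],
   [0, 2, 3, 5, 6, 1, 1, 4, 4, 7, 0, 1, 3, 4, 2, 3,
   5, 5, 3, 4, 4, 3, 3, 6, 2, 3, 6, 7, 2, 4],
   [0, 2, 3, 4, 3, 1, 1, 4, 4, 4, 2, 0, 3, 4, 2, 3, 4, 5, 3, 4, 4, 4, 3, 5, 2, 3, 3, 5, 5, 4],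
   [0, 2, 3, 4, 3, 1, 1, 4, 4, 4, 2, 1, 0, 4, 2, 3, 4, 5, 3, 4, 6, 3, 3, 5, 2, 3, 3, 5, 2, 4],
   [0, 2, 3, 4, 3, 1, 1, 4, 4, 4, 2, 1, 3, 0, 2, 3, 4, 5, 3, 4, 4, 3, 3, 5, 2, 3, 3, 5, 2, 4],
   [0, 2, 3, 4, 3, 1, 1, 4, 4, 4, 2, 1, 3, 4, 0, 6, 4, 5, 5, 5, 4, 3, 6, 5, 2, 5, 3, 5, 2, 5],
   [0, 2, 3, 4, 3, 1, 1, 4, 4, 4, 2, 1, 3, 4, 2, 0, 4, 5, 3, 5, 4, 3, 3, 5, 2, 3, 3, 5, 2, 4],
   [0, 2, 3, 4, 3, 1, 1, 4, 4, 4, 2, 1, 3, 4, 2, 3, 0, 5, 3, 4, 4, 3, 3, 6, 2, 3, 3, 5, 2, 4],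
   [0, 2, 3, 4, 3, 1, 1, 4, 4, 4, 2, 1, 3, 4, 2, 3, 4, 0, 3, 4, 4, 3, 3, 5, 2, 3, 3, 5, 2, 4],
   [0, 2, 3, 4, 3, 1, 1, 4, 4, 4, 2, 1, 3, 4, 2, 3, 4, 5, 0, 4, 4, 3, 3, 5, 2, 3, 3, 5, 2, 4],
   [0, 2, 3, 4, 3, 1, 1, 4, 4, 4, 2, 1, 3, 4, 2, 3, 4, 5, 3, 0, 4, 3, 3, 5, 2, 3, 3, 5, 2, 4],
   [0, 2, 3, 4, 3, 1, 1, 4, 4, 4, 2, 1, 3, 4, 2, 3, 4, 5, 3, 4, 0, 3, 3, 5, 2, 3, 3, 5, 2, 4],
  
   [0, 2, 3, 4, 3, 1, 1, 4, 4, 4, 2, 1, 3, 4, 2, 3, 4, 5, 3, 4, 4, 0, 3, 5, 2, 3, 3, 5, 2, 4],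
   [0, 2, 3, 4, 3, 1, 1, 4, 4, 4, 2, 1, 3, 4, 2, 3, 4, 5, 3, 4, 4, 3, 0, 5, 2, 3, 3, 5, 2, 5],
   [0, 2, 3, 4, 3, 1, 1, 4, 4, 4, 2, 1, 3, 4, 2, 3, 4, 5, 3, 4, 4, 3, 3, 0, 2, 3, 3, 5, 2, 4],
   [0, 2, 3, 4, 3, 1, 1, 4, 4, 4, 2, 1, 3, 4, 2, 3, 4, 5, 3, 4, 4, 3, 3, 5, 0, 3, 3, 5, 2, 4],
   [0, 2, 3, 4, 3, 1, 1, 4, 4, 4, 2, 1, 3, 4, 2, 3, 4, 5, 3, 4, 4, 3, 3, 5, 2, 0, 3, 5, 2, 4],
   [0, 2, 3, 4, 3, 1, 1, 4, 4, 4, 2, 1, 3, 4, 2, 3, 5, 5, 3, 4, 4, 3, 3, 6, 2, 3, 0, 5, 2, 4],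
   [0, 2, 3, 4, 3, 1, 1, 4, 4, 4, 2, 1, 3, 4, 2, 3, 4, 5, 3, 4, 4, 3, 3, 5, 2, 3, 3, 0, 2, 4],
   [0, 2, 3, 4, 3, 1, 1, 4, 4, 4, 2, 1, 3, 4, 2, 3, 4, 5, 3, 4, 4, 4, 3, 5, 2, 3, 3, 5, 0, 4],
   [0, 2, 3, 4, 3, 1, 1, 4, 4, 4, 2, 1, 3, 4, 2, 3, 4, 5, 3, 4, 4, 3, 3, 5, 2, 3, 3, 5, 2, 0]].getD v.val []).getD w.val 0

/-- adjacency -/
def adjB (a b : Fin 30) : Bool :=
  E.any fun e => (e.1 == a && e.2 == b) || (e.1 == b && e.2 == a)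

theorem adjB_iff (a b : Fin 30) : adjB a b = true ↔ (a, b) ∈ E ∨ (b, a) ∈ E := by
  simp only [adjB, List.any_eq_true, Bool.or_eq_true, Bool.and_eq_true, beq_iff_eq]
  constructor
  · rintro ⟨⟨c, d⟩, he, ⟨h1, h2⟩ | ⟨h1, h2⟩⟩
    · simp only at h1 h2; subst h1 h2; exact Or.inl he
    · simp only at h1 h2; subst h1 h2; exact Or.inr he
  · rintro (h | h)
    · exact ⟨_, h, Or.inl ⟨rfl, rfl⟩⟩
    · exact ⟨_, h, Or.inr ⟨rfl, rfl⟩⟩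

theorem E_irrefl : ∀ e ∈ E, e.1 ≠ e.2 := by decide +kernel

/-- the abstract graph -/
def HG : SimpleGraph (Fin 30) where
  Adj a b := adjB a b = true
  symm := ⟨fun a b h => by
    rw [adjB_iff] at h ⊢
    exact h.symm⟩
  loopless := ⟨fun a h => by
    rw [adjB_iff] at h
    rcases h with h | h <;> exact E_irrefl _ h rfl⟩

theorem adj_iff (a b : Fin 30) : HG.Adj a b ↔ (a, b) ∈ E ∨ (b, a) ∈ E := adjB_iff a b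

/-- positions -/
def posH (v : Fin 30) : ℂ := ⟨(X v : ℝ), (Y v : ℝ)⟩

@[simp] theorem posH_re (v : Fin 30) : (posH v).re = (X v : ℝ) := rfl
@[simp] theorem posH_im (v : Fin 30) : (posH v).im = (Y v : ℝ) := rfl

theorem mem_seg (a b : Fin 30) (z : ℂ) : z ∈ segment ℝ (posH a) (posH b) ↔
    ∃ t : ℝ, 0 ≤ t ∧ t ≤ 1 ∧ z.re = X a + t * (X b - X a) ∧ z.im = Y a + t * (Y b - Y a) := by
  rw [segment_eq_image']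
  simp only [Set.mem_image, Set.mem_Icc]
  constructor
  · rintro ⟨t, ⟨h0, h1⟩, rfl⟩
    refine ⟨t, h0, h1, ?_, ?_⟩ <;> simp [posH]
  · rintro ⟨t, h0, h1, hre, him⟩
    refine ⟨t, ⟨h0, h1⟩, ?_⟩
    apply Complex.ext <;> simp [posH, hre, him]

/-- arcs -/
def arcH : Sym2 (Fin 30) → Set ℂ :=
  Sym2.lift ⟨fun a b => segment ℝ (posH a) (posH b), fun _ _ => segment_symm ..⟩

theorem arcH_mk (a b : Fin 30) : arcH s(a, b) = segment ℝ (posH a) (posH b) := rfl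

theorem pos_check : ∀ a b : Fin 30, X a = X b → Y a = Y b → a = b := by decide +kernel

theorem posH_injective : Function.Injective posH := by
  intro a b h
  have h1 := congrArg Complex.re h
  have h2 := congrArg Complex.im h
  simp only [posH_re, posH_im, Int.cast_inj] at h1 h2
  exact pos_check a b h1 h2

theorem isArc_segment {a b : ℂ} (h : a ≠ b) : IsArc a b (segment ℝ a b) := by
  refine ⟨fun t => a + (t : ℝ) • (b - a), ?_, ?_, ?_, ?_, ?_⟩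
  · fun_prop
  · intro s t hst
    have h1 : (s : ℝ) • (b - a) = (t : ℝ) • (b - a) := add_left_cancel hst
    exact Subtype.ext (smul_left_injective ℝ (sub_ne_zero.2 h.symm) h1)
  · simp
  · simp
  · rw [segment_eq_image']
    ext z
    constructor
    · rintro ⟨t, rfl⟩
      exact ⟨t, t.2, rfl⟩
    · rintro ⟨t, ht, rfl⟩
      exact ⟨⟨t, ht⟩, rfl⟩

/-- the functional `n` separates the segment `ab` from the segment `cd` -/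
def sep (n : ℤ × ℤ) (a b c d : Fin 30) : Bool :=
  decide (n.1 * X a + n.2 * Y a < n.1 * X c + n.2 * Y c) &&
  decide (n.1 * X a + n.2 * Y a < n.1 * X d + n.2 * Y d) &&
  decide (n.1 * X b + n.2 * Y b < n.1 * X c + n.2 * Y c) &&
  decide (n.1 * X b + n.2 * Y b < n.1 * X d + n.2 * Y d)

theorem sep_spec {n : ℤ × ℤ} {a b c d : Fin 30} (h : sep n a b c d = true) {z : ℂ}
    (h1 : z ∈ segment ℝ (posH a) (posH b)) (h2 : z ∈ segment ℝ (posH c) (posH d)) : False := by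
  simp only [sep, Bool.and_eq_true, decide_eq_true_eq] at h
  obtain ⟨⟨⟨e1, e2⟩, e3⟩, e4⟩ := h
  obtain ⟨s, hs0, hs1, hs2, hs3⟩ := (mem_seg _ _ _).1 h1
  obtain ⟨t, ht0, ht1, ht2, ht3⟩ := (mem_seg _ _ _).1 h2
  have e1' : (n.1 : ℝ) * X a + n.2 * Y a < n.1 * X c + n.2 * Y c := by exact_mod_cast e1
  have e2' : (n.1 : ℝ) * X a + n.2 * Y a < n.1 * X d + n.2 * Y d := by exact_mod_cast e2
  have e3' : (n.1 : ℝ) * X b + n.2 * Y b < n.1 * X c + n.2 * Y c := by exact_mod_cast e3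
  have e4' : (n.1 : ℝ) * X b + n.2 * Y b < n.1 * X d + n.2 * Y d := by exact_mod_cast e4
  set A := (n.1 : ℝ) * X a + n.2 * Y a with hA
  set B := (n.1 : ℝ) * X b + n.2 * Y b with hB
  set C := (n.1 : ℝ) * X c + n.2 * Y c with hC
  set F := (n.1 : ℝ) * X d + n.2 * Y d with hF
  have k1 : (n.1 : ℝ) * z.re + n.2 * z.im = (1 - s) * A + s * B := by
    rw [hs2, hs3, hA, hB]; ring
  have k2 : (n.1 : ℝ) * z.re + n.2 * z.im = (1 - t) * C + t * F := by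
    rw [ht2, ht3, hC, hF]; ring
  have k3 : (1 - s) * A + s * B < min C F := by
    have hmax : (1 - s) * A + s * B ≤ max A B := by
      have : (1 - s) * A + s * B ≤ (1 - s) * max A B + s * max A B :=
        add_le_add (mul_le_mul_of_nonneg_left (le_max_left _ _) (by linarith))
          (mul_le_mul_of_nonneg_left (le_max_right _ _) hs0)
      linarith
    exact lt_of_le_of_lt hmax (max_lt (lt_min e1' e2') (lt_min e3' e4'))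
  have k4 : min C F ≤ (1 - t) * C + t * F := by
    have : (1 - t) * min C F + t * min C F ≤ (1 - t) * C + t * F :=
      add_le_add (mul_le_mul_of_nonneg_left (min_le_left _ _) (by linarith))
        (mul_le_mul_of_nonneg_left (min_le_right _ _) ht0)
    linarith
  linarith

/-- the candidate functionals -/
def cand (a b c d : Fin 30) : List (ℤ × ℤ) :=
  [(Y b - Y a, X a - X b), (Y a - Y b, X b - X a), (Y d - Y c, X c - X d),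
    (Y c - Y d, X d - X c), (X b - X a, Y b - Y a), (X a - X b, Y a - Y b)]

/-- segments `pq` and `pr` leave `p` in different directions -/
def share (p q r : Fin 30) : Bool :=
  decide ((X q - X p) * (Y r - Y p) - (Y q - Y p) * (X r - X p) ≠ 0) ||
  decide ((X q - X p) * (X r - X p) + (Y q - Y p) * (Y r - Y p) < 0)

theorem share_spec {p q r : Fin 30} (h : share p q r = true) {z : ℂ}
    (h1 : z ∈ segment ℝ (posH p) (posH q)) (h2 : z ∈ segment ℝ (posH p) (posH r)) :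
    posH p = z := by
  obtain ⟨s, hs0, hs1, hs2, hs3⟩ := (mem_seg _ _ _).1 h1
  obtain ⟨t, ht0, ht1, ht2, ht3⟩ := (mem_seg _ _ _).1 h2
  have e1 : s * ((X q : ℝ) - X p) = t * ((X r : ℝ) - X p) := by linarith
  have e2 : s * ((Y q : ℝ) - Y p) = t * ((Y r : ℝ) - Y p) := by linarith
  simp only [share, Bool.or_eq_true, decide_eq_true_eq] at h
  have key : s * ((X q : ℝ) - X p) = 0 ∧ s * ((Y q : ℝ) - Y p) = 0 := by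
    rcases h with h | h
    · have h' : ((X q : ℝ) - X p) * (Y r - Y p) - (Y q - Y p) * (X r - X p) ≠ 0 := by
        exact_mod_cast h
      have h0 : s * (((X q : ℝ) - X p) * (Y r - Y p) - (Y q - Y p) * (X r - X p)) = 0 := by
        linear_combination ((Y r : ℝ) - Y p) * e1 - ((X r : ℝ) - X p) * e2
      rcases mul_eq_zero.1 h0 with h0 | h0
      · simp [h0]
      · exact absurd h0 h'
    · have h' : ((X q : ℝ) - X p) * (X r - X p) + (Y q - Y p) * (Y r - Y p) < 0 := by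
        exact_mod_cast h
      have h0 : (s * ((X q : ℝ) - X p)) ^ 2 + (s * ((Y q : ℝ) - Y p)) ^ 2 =
          s * t * (((X q : ℝ) - X p) * (X r - X p) + (Y q - Y p) * (Y r - Y p)) := by
        linear_combination (s * ((X q : ℝ) - X p)) * e1 + (s * ((Y q : ℝ) - Y p)) * e2
      have h1 : s * t * (((X q : ℝ) - X p) * (X r - X p) + (Y q - Y p) * (Y r - Y p)) ≤ 0 :=
        mul_nonpos_of_nonneg_of_nonpos (mul_nonneg hs0 ht0) h'.le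
      constructor <;> nlinarith [sq_nonneg (s * ((X q : ℝ) - X p)),
        sq_nonneg (s * ((Y q : ℝ) - Y p))]
  apply Complex.ext
  · rw [hs2, posH_re]; linarith [key.1]
  · rw [hs3, posH_im]; linarith [key.2]

/-- the check for a pair of edges -/
def pairOk (e f : Fin 30 × Fin 30) : Bool :=
  (e == f) ||
  (e.1 == f.1 && share e.1 e.2 f.2) || (e.1 == f.2 && share e.1 e.2 f.1) ||
  (e.2 == f.1 && share e.2 e.1 f.2) || (e.2 == f.2 && share e.2 e.1 f.1) ||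
  (cand e.1 e.2 f.1 f.2).any fun n => sep n e.1 e.2 f.1 f.2

theorem pair_check : (E.all fun e => E.all fun f => pairOk e f) = true := by decide +kernel

theorem pairOk_spec {e f : Fin 30 × Fin 30} (h : pairOk e f = true) (hne : e ≠ f) {z : ℂ}
    (h1 : z ∈ segment ℝ (posH e.1) (posH e.2)) (h2 : z ∈ segment ℝ (posH f.1) (posH f.2)) :
    ∃ v, (v = e.1 ∨ v = e.2) ∧ (v = f.1 ∨ v = f.2) ∧ posH v = z := by
  simp only [pairOk, Bool.or_eq_true, Bool.and_eq_true, beq_iff_eq, List.any_eq_true] at h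
  rcases h with ((((h | h) | h) | h) | h) | ⟨n, -, h⟩
  · exact absurd h hne
  · refine ⟨e.1, Or.inl rfl, Or.inl h.1, share_spec h.2 h1 ?_⟩
    rw [h.1]; exact h2
  · refine ⟨e.1, Or.inl rfl, Or.inr h.1, share_spec h.2 h1 ?_⟩
    rw [h.1, segment_symm]; exact h2
  · refine ⟨e.2, Or.inr rfl, Or.inl h.1, share_spec h.2 (by rw [segment_symm]; exact h1) ?_⟩
    rw [h.1]; exact h2
  · refine ⟨e.2, Or.inr rfl, Or.inr h.1, share_spec h.2 (by rw [segment_symm]; exact h1) ?_⟩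
    rw [h.1, segment_symm]; exact h2
  · exact (sep_spec h h1 h2).elim

/-- the check for a vertex and an edge -/
def vertOk (e : Fin 30 × Fin 30) (v : Fin 30) : Bool :=
  (v == e.1) || (v == e.2) ||
  decide ((X e.2 - X e.1) * (Y v - Y e.1) - (Y e.2 - Y e.1) * (X v - X e.1) ≠ 0) ||
  decide ((X e.2 - X e.1) * (X v - X e.1) + (Y e.2 - Y e.1) * (Y v - Y e.1) < 0) ||
  decide ((X e.1 - X e.2) * (X v - X e.2) + (Y e.1 - Y e.2) * (Y v - Y e.2) < 0)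

theorem vert_check : (E.all fun e => (List.finRange 30).all fun v => vertOk e v) = true := by
  decide +kernel

theorem vertOk_spec {e : Fin 30 × Fin 30} {v : Fin 30} (h : vertOk e v = true)
    (hv : posH v ∈ segment ℝ (posH e.1) (posH e.2)) : v = e.1 ∨ v = e.2 := by
  obtain ⟨t, h0, h1, h2, h3⟩ := (mem_seg _ _ _).1 hv
  rw [posH_re] at h2
  rw [posH_im] at h3
  simp only [vertOk, Bool.or_eq_true, beq_iff_eq, decide_eq_true_eq] at h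
  rcases h with (((h | h) | h) | h) | h
  · exact Or.inl h
  · exact Or.inr h
  · exfalso
    have h' : ((X e.2 : ℝ) - X e.1) * (Y v - Y e.1) - (Y e.2 - Y e.1) * (X v - X e.1) ≠ 0 := by
      exact_mod_cast h
    apply h'
    rw [h2, h3]; ring
  · exfalso
    have h' : ((X e.2 : ℝ) - X e.1) * (X v - X e.1) + (Y e.2 - Y e.1) * (Y v - Y e.1) < 0 := by
      exact_mod_cast h
    rw [h2, h3] at h'
    nlinarith [mul_nonneg h0 (sq_nonneg ((X e.2 : ℝ) - X e.1)),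
      mul_nonneg h0 (sq_nonneg ((Y e.2 : ℝ) - Y e.1))]
  · exfalso
    have h' : ((X e.1 : ℝ) - X e.2) * (X v - X e.2) + (Y e.1 - Y e.2) * (Y v - Y e.2) < 0 := by
      exact_mod_cast h
    rw [h2, h3] at h'
    have h1' : 0 ≤ 1 - t := by linarith
    nlinarith [mul_nonneg h1' (sq_nonneg ((X e.2 : ℝ) - X e.1)),
      mul_nonneg h1' (sq_nonneg ((Y e.2 : ℝ) - Y e.1))]

theorem mem_edgeSet {e : Sym2 (Fin 30)} (he : e ∈ HG.edgeSet) :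
    ∃ a b, (a, b) ∈ E ∧ e = s(a, b) := by
  induction e using Sym2.ind with
  | _ a b =>
    rcases (adj_iff a b).1 he with h | h
    · exact ⟨a, b, h, rfl⟩
    · exact ⟨b, a, h, Sym2.eq_swap⟩

/-- the plane graph -/
def H30 : PlaneGraph (Fin 30) where
  graph := HG
  pos := posH
  arc := arcH
  pos_injective := posH_injective
  isArc v w h := isArc_segment (fun h' => h.ne (posH_injective h'))
  arc_inter := by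
    intro e he f hf hne z h1 h2
    obtain ⟨a, b, hab, rfl⟩ := mem_edgeSet he
    obtain ⟨c, d, hcd, rfl⟩ := mem_edgeSet hf
    have hc := List.all_eq_true.1 (List.all_eq_true.1 pair_check _ hab) _ hcd
    obtain ⟨v, hv1, hv2, hv3⟩ := pairOk_spec hc (fun h => hne (by
      rw [Prod.mk.injEq] at h
      rw [h.1, h.2])) h1 h2
    exact ⟨v, Sym2.mem_iff.2 hv1, Sym2.mem_iff.2 hv2, hv3⟩
  arc_vertex := by
    intro e he v hv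
    obtain ⟨a, b, hab, rfl⟩ := mem_edgeSet he
    have hc := List.all_eq_true.1 (List.all_eq_true.1 vert_check _ hab) v (List.mem_finRange v)
    exact Sym2.mem_iff.2 (vertOk_spec hc hv)

end Pool.Agent.H77.ISO
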