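import Mathlib
import Pool.Agent.H77.ISO.HDef

/-!
# Distances and connectivity of H
-/

namespace Pool.Agent.H77.ISO

theorem dist_of_table {V : Type*} (G : SimpleGraph V) (T : V → V → ℕ) (h0 : ∀ v, T v v = 0)
    (h1 : ∀ v a b, G.Adj a b → T v b ≤ T v a + 1)
    (h2 : ∀ v w, v ≠ w → ∃ w', G.Adj w' w ∧ T v w' + 1 = T v w) :
    G.Preconnected ∧ ∀ v w, G.dist v w = T v w := by
  have up : ∀ n v w, T v w = n → ∃ p : G.Walk v w, p.length = n := by
    intro n
    induction n with
    | zero =>
      intro v w h
      by_cases hvw : v = w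
      · subst hvw; exact ⟨SimpleGraph.Walk.nil, rfl⟩
      · obtain ⟨w', -, h'⟩ := h2 v w hvw
        omega
    | succ n ih =>
      intro v w h
      have hvw : v ≠ w := by
        rintro rfl
        rw [h0] at h
        omega
      obtain ⟨w', ha, h'⟩ := h2 v w hvw
      obtain ⟨p, hp⟩ := ih v w' (by omega)
      exact ⟨p.concat ha, by rw [SimpleGraph.Walk.length_concat, hp]⟩
  have low : ∀ v w w' (p : G.Walk w w'), T v w' ≤ T v w + p.length := by
    intro v w w' p
    induction p with
    | nil => simp
    | cons h p ih =>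
      have := h1 v _ _ h
      rw [SimpleGraph.Walk.length_cons]
      omega
  have hpre : G.Preconnected := fun v w => by
    obtain ⟨p, -⟩ := up _ v w rfl
    exact ⟨p⟩
  refine ⟨hpre, fun v w => le_antisymm ?_ ?_⟩
  · obtain ⟨p, hp⟩ := up _ v w rfl
    rw [← hp]
    exact SimpleGraph.dist_le p
  · obtain ⟨p, hp⟩ := (hpre v w).exists_walk_length_eq_dist
    rw [← hp]
    have := low v v w p
    rw [h0] at this
    omega

theorem D_diag : ∀ v : Fin 30, D v v = 0 := by decide +kernel

theorem D_edge : ((List.finRange 30).all fun v => E.all fun e =>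
    decide (D v e.1 ≤ D v e.2 + 1) && decide (D v e.2 ≤ D v e.1 + 1)) = true := by
  decide +kernel

theorem N_check : ((List.finRange 30).all fun v => (N v).all fun w => adjB w v) = true := by
  decide +kernel

theorem D_step : ((List.finRange 30).all fun v => (List.finRange 30).all fun w =>
    (v == w) || (N w).any fun w' => decide (D v w' + 1 = D v w)) = true := by
  decide +kernel

theorem H_dist : HG.Preconnected ∧ ∀ v w, HG.dist v w = D v w := by
  refine dist_of_table HG D D_diag ?_ ?_
  · intro v a b h
    have hv := List.all_eq_true.1 D_edge v (List.mem_finRange v)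
    rcases (adj_iff a b).1 h with h | h
    · have := List.all_eq_true.1 hv _ h
      simp only [Bool.and_eq_true, decide_eq_true_eq] at this
      exact this.2
    · have := List.all_eq_true.1 hv _ h
      simp only [Bool.and_eq_true, decide_eq_true_eq] at this
      exact this.1
  · intro v w hvw
    have hv := List.all_eq_true.1 (List.all_eq_true.1 D_step v (List.mem_finRange v)) w
      (List.mem_finRange w)
    simp only [Bool.or_eq_true, beq_iff_eq, List.any_eq_true, decide_eq_true_eq] at hv
    rcases hv with hv | ⟨w', hw', hv⟩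
    · exact absurd hv hvw
    · exact ⟨w', List.all_eq_true.1 (List.all_eq_true.1 N_check w (List.mem_finRange w)) w' hw', hv⟩

theorem dist_eq (v w : Fin 30) : H30.graph.dist v w = D v w := H_dist.2 v w

theorem conn_induce {V : Type*} (G : SimpleGraph V) (v r : V) (hr : r ≠ v) (f : V → ℕ)
    (h : ∀ w, w ≠ v → w ≠ r → ∃ w', w' ≠ v ∧ G.Adj w' w ∧ f w' < f w) :
    (G.induce {v}ᶜ).Connected := by
  have key : ∀ n (w : V) (hw : w ≠ v), f w ≤ n →
      (G.induce {v}ᶜ).Reachable ⟨w, hw⟩ ⟨r, hr⟩ := by
    intro n
    induction n with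
    | zero =>
      intro w hw hn
      by_cases hwr : w = r
      · subst hwr; exact SimpleGraph.Reachable.refl _
      · obtain ⟨w', -, -, h'⟩ := h w hw hwr
        omega
    | succ n ih =>
      intro w hw hn
      by_cases hwr : w = r
      · subst hwr; exact SimpleGraph.Reachable.refl _
      · obtain ⟨w', h1, h2, h3⟩ := h w hw hwr
        have hadj : (G.induce {v}ᶜ).Adj ⟨w, hw⟩ ⟨w', h1⟩ := h2.symm
        exact hadj.reachable.trans (ih w' h1 (by omega))
  have hpre : (G.induce {v}ᶜ).Preconnected := fun a b =>
    (key _ a.1 a.2 le_rfl).trans (key _ b.1 b.2 le_rfl).symm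
  exact { preconnected := hpre, nonempty := ⟨⟨r, hr⟩⟩ }

/-- the root -/
def root (v : Fin 30) : Fin 30 := if v = 0 then 1 else 0

theorem R_step : ((List.finRange 30).all fun v => (List.finRange 30).all fun w =>
    (w == v) || (w == root v) ||
      (N w).any fun w' => (w' != v) && decide (R v w' < R v w)) = true := by
  decide +kernel

theorem root_ne : ∀ v : Fin 30, root v ≠ v := by decide +kernel

theorem H_connected : H30.graph.Connected :=
  { preconnected := H_dist.1, nonempty := ⟨0⟩ }

theorem H_twoConnected : TwoConnected H30.graph := by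
  refine ⟨by simp, H_connected, fun v => ?_⟩
  refine conn_induce _ v (root v) (root_ne v) (R v) fun w hw hwr => ?_
  have hv := List.all_eq_true.1 (List.all_eq_true.1 R_step v (List.mem_finRange v)) w
      (List.mem_finRange w)
  simp only [Bool.or_eq_true, beq_iff_eq, List.any_eq_true, Bool.and_eq_true, bne_iff_ne,
    decide_eq_true_eq] at hv
  rcases hv with (hv | hv) | ⟨w', hw', h1, h2⟩
  · exact absurd hv hw
  · exact absurd hv hwr
  · exact ⟨w', h1,
      List.all_eq_true.1 (List.all_eq_true.1 N_check w (List.mem_finRange w)) w' hw', h2⟩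

end Pool.Agent.H77.ISO
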