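import Mathlib
import Pool.Agent.H77.ISO.Dist

/-!
# Geometry of the drawing of H: sides of the triangles, regions
-/

namespace Pool.Agent.H77.ISO

instance : DecidableRel HG.Adj := fun a b => inferInstanceAs (Decidable (adjB a b = true))

/-- A point on an edge. -/
theorem mem_drawing_of {a b : Fin 30} (h : HG.Adj a b) {z : ℂ} {t : ℝ} (h0 : 0 ≤ t) (h1 : t ≤ 1)
    (h2 : z.re = X a + t * (X b - X a)) (h3 : z.im = Y a + t * (Y b - Y a)) :
    z ∈ H30.drawing := by
  refine Or.inr ?_
  simp only [Set.mem_iUnion]
  exact ⟨s(a, b), h, (mem_seg a b z).2 ⟨t, h0, h1, h2, h3⟩⟩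

theorem drawing_cases {z : ℂ} (hz : z ∈ H30.drawing) :
    ∃ e ∈ E, z ∈ segment ℝ (posH e.1) (posH e.2) := by
  rcases hz with ⟨v, rfl⟩ | hz
  · have : ∀ v : Fin 30, ∃ w, HG.Adj w v := by
      intro v
      have hN : ∀ v : Fin 30, N v ≠ [] := by decide +kernel
      obtain ⟨w, hw⟩ := List.exists_mem_of_ne_nil _ (hN v)
      exact ⟨w, List.all_eq_true.1 (List.all_eq_true.1 N_check v (List.mem_finRange v)) w hw⟩
    obtain ⟨w, hw⟩ := this v
    rcases (adj_iff w v).1 hw with h | h
    · exact ⟨_, h, right_mem_segment ..⟩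
    · exact ⟨_, h, left_mem_segment ..⟩
  · simp only [Set.mem_iUnion] at hz
    obtain ⟨e, he, hz⟩ := hz
    obtain ⟨a, b, hab, rfl⟩ := mem_edgeSet he
    exact ⟨_, hab, hz⟩

section sides

variable {z : ℂ}

theorem side_left (h : z.re = 0) (h0 : 0 ≤ z.im) (h1 : z.im ≤ 24) : z ∈ H30.drawing := by
  rcases le_total z.im 12 with h2 | h2
  · refine mem_drawing_of (a := 12) (b := 10) (by decide +kernel) (t := z.im / 12) (by linarith)
      (by linarith) ?_ ?_ <;> simp [X, Y, h]
  · rcases le_total z.im 18 with h3 | h3
    · refine mem_drawing_of (a := 10) (b := 26) (by decide +kernel) (t := (z.im - 12) / 6)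
        (by linarith) (by linarith) ?_ ?_ <;> simp [X, Y, h] <;> ring
    · refine mem_drawing_of (a := 26) (b := 16) (by decide +kernel) (t := (z.im - 18) / 6)
        (by linarith) (by linarith) ?_ ?_ <;> simp [X, Y, h] <;> ring

theorem side_bottom (h : z.im = 0) (h0 : 0 ≤ z.re) (h1 : z.re ≤ 24) : z ∈ H30.drawing := by
  rcases le_total z.re 6 with h2 | h2
  · refine mem_drawing_of (a := 12) (b := 24) (by decide +kernel) (t := z.re / 6) (by linarith)
      (by linarith) ?_ ?_ <;> simp [X, Y, h]
  · rcases le_total z.re 12 with h3 | h3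
    · refine mem_drawing_of (a := 24) (b := 6) (by decide +kernel) (t := (z.re - 6) / 6)
        (by linarith) (by linarith) ?_ ?_ <;> simp [X, Y, h] <;> ring
    · refine mem_drawing_of (a := 6) (b := 14) (by decide +kernel) (t := (z.re - 12) / 12)
        (by linarith) (by linarith) ?_ ?_ <;> simp [X, Y, h] <;> ring

theorem side_diag (h : z.re + z.im = 24) (h0 : 0 ≤ z.re) (h1 : z.re ≤ 24) :
    z ∈ H30.drawing := by
  have hy : z.im = 24 - z.re := by linarith
  rcases le_total z.re 12 with h2 | h2
  · refine mem_drawing_of (a := 16) (b := 8) (by decide +kernel) (t := z.re / 12) (by linarith)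
      (by linarith) ?_ ?_ <;> simp [X, Y, hy] <;> ring
  · rcases le_total z.re 18 with h3 | h3
    · refine mem_drawing_of (a := 8) (b := 25) (by decide +kernel) (t := (z.re - 12) / 6)
        (by linarith) (by linarith) ?_ ?_ <;> simp [X, Y, hy] <;> ring
    · refine mem_drawing_of (a := 25) (b := 14) (by decide +kernel) (t := (z.re - 18) / 6)
        (by linarith) (by linarith) ?_ ?_ <;> simp [X, Y, hy] <;> ring

theorem side_v (h : z.re = 12) (h0 : 0 ≤ z.im) (h1 : z.im ≤ 12) : z ∈ H30.drawing := by
  rcases le_total z.im 4 with h2 | h2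
  · refine mem_drawing_of (a := 6) (b := 1) (by decide +kernel) (t := z.im / 4) (by linarith)
      (by linarith) ?_ ?_ <;> simp [X, Y, h]
  · rcases le_total z.im 8 with h3 | h3
    · refine mem_drawing_of (a := 1) (b := 2) (by decide +kernel) (t := (z.im - 4) / 4)
        (by linarith) (by linarith) ?_ ?_ <;> simp [X, Y, h] <;> ring
    · refine mem_drawing_of (a := 2) (b := 8) (by decide +kernel) (t := (z.im - 8) / 4)
        (by linarith) (by linarith) ?_ ?_ <;> simp [X, Y, h] <;> ring

theorem side_h (h : z.im = 12) (h0 : 0 ≤ z.re) (h1 : z.re ≤ 12) : z ∈ H30.drawing := by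
  rcases le_total z.re 4 with h2 | h2
  · refine mem_drawing_of (a := 10) (b := 4) (by decide +kernel) (t := z.re / 4) (by linarith)
      (by linarith) ?_ ?_ <;> simp [X, Y, h]
  · rcases le_total z.re 8 with h3 | h3
    · refine mem_drawing_of (a := 4) (b := 3) (by decide +kernel) (t := (z.re - 4) / 4)
        (by linarith) (by linarith) ?_ ?_ <;> simp [X, Y, h] <;> ring
    · refine mem_drawing_of (a := 3) (b := 8) (by decide +kernel) (t := (z.re - 8) / 4)
        (by linarith) (by linarith) ?_ ?_ <;> simp [X, Y, h] <;> ring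

theorem side_d (h : z.re + z.im = 12) (h0 : 0 ≤ z.re) (h1 : z.re ≤ 12) : z ∈ H30.drawing := by
  have hy : z.im = 12 - z.re := by linarith
  rcases le_total z.re 4 with h2 | h2
  · refine mem_drawing_of (a := 10) (b := 5) (by decide +kernel) (t := z.re / 4) (by linarith)
      (by linarith) ?_ ?_ <;> simp [X, Y, hy] <;> ring
  · rcases le_total z.re 8 with h3 | h3
    · refine mem_drawing_of (a := 5) (b := 0) (by decide +kernel) (t := (z.re - 4) / 4)
        (by linarith) (by linarith) ?_ ?_ <;> simp [X, Y, hy] <;> ring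
    · refine mem_drawing_of (a := 0) (b := 6) (by decide +kernel) (t := (z.re - 8) / 4)
        (by linarith) (by linarith) ?_ ?_ <;> simp [X, Y, hy] <;> ring

end sides

/-- the closed medial triangle and its interior -/
def KT : Set ℂ := {z | z.re ≤ 12 ∧ z.im ≤ 12 ∧ 12 ≤ z.re + z.im}
/-- the open medial triangle -/
def QT : Set ℂ := {z | z.re < 12 ∧ z.im < 12 ∧ 12 < z.re + z.im}
/-- the closed corner triangle at 12 -/
def KA : Set ℂ := {z | 0 ≤ z.re ∧ 0 ≤ z.im ∧ z.re + z.im ≤ 12}
/-- the open corner triangle at 12 -/
def QA : Set ℂ := {z | 0 < z.re ∧ 0 < z.im ∧ z.re + z.im < 12}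
/-- the closed corner triangle at 14 -/
def KB : Set ℂ := {z | 12 ≤ z.re ∧ 0 ≤ z.im ∧ z.re + z.im ≤ 24}
/-- the open corner triangle at 14 -/
def QB : Set ℂ := {z | 12 < z.re ∧ 0 < z.im ∧ z.re + z.im < 24}
/-- the closed corner triangle at 16 -/
def KC : Set ℂ := {z | 0 ≤ z.re ∧ 12 ≤ z.im ∧ z.re + z.im ≤ 24}
/-- the open corner triangle at 16 -/
def QC : Set ℂ := {z | 0 < z.re ∧ 12 < z.im ∧ z.re + z.im < 24}

/-- closed region, open region, difference in the drawing -/
structure Reg (K Q : Set ℂ) : Prop where
  closed : IsClosed K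
  isOpen : IsOpen Q
  sub : Q ⊆ K
  draw : ∀ z ∈ K, z ∉ Q → z ∈ H30.drawing

theorem regT : Reg KT QT where
  closed := by
    refine IsClosed.inter (isClosed_le Complex.continuous_re continuous_const) (IsClosed.inter
      (isClosed_le Complex.continuous_im continuous_const)
      (isClosed_le continuous_const (Complex.continuous_re.add Complex.continuous_im)))
  isOpen := by
    refine IsOpen.inter (isOpen_lt Complex.continuous_re continuous_const) (IsOpen.inter
      (isOpen_lt Complex.continuous_im continuous_const)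
      (isOpen_lt continuous_const (Complex.continuous_re.add Complex.continuous_im)))
  sub := fun z hz => ⟨hz.1.le, hz.2.1.le, hz.2.2.le⟩
  draw := by
    rintro z ⟨h1, h2, h3⟩ hn
    rcases h1.lt_or_eq with h1' | h1'
    · rcases h2.lt_or_eq with h2' | h2'
      · rcases h3.lt_or_eq with h3' | h3'
        · exact absurd ⟨h1', h2', h3'⟩ hn
        · exact side_d h3'.symm (by linarith) (by linarith)
      · exact side_h h2' (by linarith) (by linarith)
    · exact side_v h1' (by linarith) (by linarith)

theorem regA : Reg KA QA where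
  closed := by
    refine IsClosed.inter (isClosed_le continuous_const Complex.continuous_re) (IsClosed.inter
      (isClosed_le continuous_const Complex.continuous_im)
      (isClosed_le (Complex.continuous_re.add Complex.continuous_im) continuous_const))
  isOpen := by
    refine IsOpen.inter (isOpen_lt continuous_const Complex.continuous_re) (IsOpen.inter
      (isOpen_lt continuous_const Complex.continuous_im)
      (isOpen_lt (Complex.continuous_re.add Complex.continuous_im) continuous_const))
  sub := fun z hz => ⟨hz.1.le, hz.2.1.le, hz.2.2.le⟩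
  draw := by
    rintro z ⟨h1, h2, h3⟩ hn
    rcases h1.lt_or_eq with h1' | h1'
    · rcases h2.lt_or_eq with h2' | h2'
      · rcases h3.lt_or_eq with h3' | h3'
        · exact absurd ⟨h1', h2', h3'⟩ hn
        · exact side_d h3' (by linarith) (by linarith)
      · exact side_bottom h2'.symm (by linarith) (by linarith)
    · exact side_left h1'.symm (by linarith) (by linarith)

theorem regB : Reg KB QB where
  closed := by
    refine IsClosed.inter (isClosed_le continuous_const Complex.continuous_re) (IsClosed.inter
      (isClosed_le continuous_const Complex.continuous_im)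
      (isClosed_le (Complex.continuous_re.add Complex.continuous_im) continuous_const))
  isOpen := by
    refine IsOpen.inter (isOpen_lt continuous_const Complex.continuous_re) (IsOpen.inter
      (isOpen_lt continuous_const Complex.continuous_im)
      (isOpen_lt (Complex.continuous_re.add Complex.continuous_im) continuous_const))
  sub := fun z hz => ⟨hz.1.le, hz.2.1.le, hz.2.2.le⟩
  draw := by
    rintro z ⟨h1, h2, h3⟩ hn
    rcases h1.lt_or_eq with h1' | h1'
    · rcases h2.lt_or_eq with h2' | h2'
      · rcases h3.lt_or_eq with h3' | h3'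
        · exact absurd ⟨h1', h2', h3'⟩ hn
        · exact side_diag h3' (by linarith) (by linarith)
      · exact side_bottom h2'.symm (by linarith) (by linarith)
    · exact side_v h1'.symm (by linarith) (by linarith)

theorem regC : Reg KC QC where
  closed := by
    refine IsClosed.inter (isClosed_le continuous_const Complex.continuous_re) (IsClosed.inter
      (isClosed_le continuous_const Complex.continuous_im)
      (isClosed_le (Complex.continuous_re.add Complex.continuous_im) continuous_const))
  isOpen := by
    refine IsOpen.inter (isOpen_lt continuous_const Complex.continuous_re) (IsOpen.inter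
      (isOpen_lt continuous_const Complex.continuous_im)
      (isOpen_lt (Complex.continuous_re.add Complex.continuous_im) continuous_const))
  sub := fun z hz => ⟨hz.1.le, hz.2.1.le, hz.2.2.le⟩
  draw := by
    rintro z ⟨h1, h2, h3⟩ hn
    rcases h1.lt_or_eq with h1' | h1'
    · rcases h2.lt_or_eq with h2' | h2'
      · rcases h3.lt_or_eq with h3' | h3'
        · exact absurd ⟨h1', h2', h3'⟩ hn
        · exact side_diag h3' (by linarith) (by linarith)
      · exact side_h h2'.symm (by linarith) (by linarith)
    · exact side_left h1'.symm (by linarith) (by linarith)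

theorem Reg.closure_sub {K Q : Set ℂ} (h : Reg K Q) : closure Q ⊆ K :=
  closure_minimal h.sub h.closed

theorem Reg.frontier_sub {K Q : Set ℂ} (h : Reg K Q) : frontier Q ⊆ H30.drawing := by
  rintro z ⟨h1, h2⟩
  rw [h.isOpen.interior_eq] at h2
  exact h.draw z (h.closure_sub h1) h2

theorem out_isOpen {K Q : Set ℂ} (h : Reg K Q) : IsOpen (KT ∪ K)ᶜ :=
  (regT.closed.union h.closed).isOpen_compl

theorem out_frontier {K Q : Set ℂ} (h : Reg K Q) : frontier (KT ∪ K)ᶜ ⊆ H30.drawing := by
  rw [frontier_compl]
  rintro z ⟨h1, h2⟩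
  rw [(regT.closed.union h.closed).closure_eq] at h1
  have hT : z ∉ QT := fun hz => h2 (mem_interior.2
    ⟨QT, regT.sub.trans Set.subset_union_left, regT.isOpen, hz⟩)
  have hQ : z ∉ Q := fun hz => h2 (mem_interior.2
    ⟨Q, h.sub.trans Set.subset_union_right, h.isOpen, hz⟩)
  rcases h1 with h1 | h1
  · exact regT.draw z h1 hT
  · exact h.draw z h1 hQ

theorem three_cases {K Q : Set ℂ} (h : Reg K Q) {z : ℂ} (hz : z ∉ H30.drawing) :
    z ∈ QT ∨ z ∈ Q ∨ z ∈ (KT ∪ K)ᶜ := by
  by_cases h1 : z ∈ KT
  · left
    by_contra hn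
    exact hz (regT.draw z h1 hn)
  · by_cases h2 : z ∈ K
    · right; left
      by_contra hn
      exact hz (h.draw z h2 hn)
    · right; right
      rintro (h' | h')
      · exact h1 h'
      · exact h2 h'

/-- the closure of the outer region misses any open set covered by the two triangles -/
theorem out_closure {K U : Set ℂ} (hU : IsOpen U) (hUK : U ⊆ KT ∪ K) {z : ℂ}
    (hz : z ∈ closure (KT ∪ K)ᶜ) : z ∉ U := by
  intro hzU
  obtain ⟨w, hw1, hw2⟩ := mem_closure_iff.1 hz U hU hzU
  exact hw2 (hUK hw1)

end Pool.Agent.H77.ISO
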