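import Mathlib
import Pool.Agent.H77.ISO.Geo

/-!
# The face condition for H
-/

namespace Pool.Agent.H77.ISO

theorem quasi_mono {V : Type*} {G : SimpleGraph V} {u : V} {S S' : Set V} (h : S ⊆ S')
    (hq : QuasiEccentric G u S) : QuasiEccentric G u S' :=
  fun ⟨v, hv⟩ => hq ⟨v, fun x hx => hv x (h hx)⟩

/-- A connected set in the complement of the drawing determines a face with known boundary. -/
theorem face_of {U : Set ℂ} (hU : IsPreconnected U) (hne : U.Nonempty)
    (hd : ∀ z ∈ U, z ∉ H30.drawing) (S : Set (Fin 30)) (hS : ∀ v ∈ S, posH v ∈ closure U) :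
    ∃ F, H30.IsFace F ∧ S ⊆ H30.bdry F := by
  obtain ⟨p, hp⟩ := hne
  refine ⟨connectedComponentIn H30.drawingᶜ p, ⟨p, hd p hp, rfl⟩, fun v hv => ?_⟩
  have hsub : U ⊆ connectedComponentIn H30.drawingᶜ p :=
    hU.subset_connectedComponentIn hp (fun z hz => hd z hz)
  refine ⟨closure_mono hsub (hS v hv), fun h => ?_⟩
  have h1 := connectedComponentIn_subset _ _ (interior_subset h)
  exact h1 (Or.inl ⟨v, rfl⟩)

theorem segment_ge {a b : Fin 30} {z : ℂ} (hz : z ∈ segment ℝ (posH a) (posH b)) {p q c : ℤ}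
    (ha : c ≤ p * X a + q * Y a) (hb : c ≤ p * X b + q * Y b) :
    (c : ℝ) ≤ p * z.re + q * z.im := by
  obtain ⟨t, h0, h1, h2, h3⟩ := (mem_seg _ _ _).1 hz
  have ha' : (c : ℝ) ≤ p * X a + q * Y a := by exact_mod_cast ha
  have hb' : (c : ℝ) ≤ p * X b + q * Y b := by exact_mod_cast hb
  have e : (p : ℝ) * z.re + q * z.im = (1 - t) * (p * X a + q * Y a) +
      t * (p * X b + q * Y b) := by rw [h2, h3]; ring
  rw [e]
  nlinarith [mul_le_mul_of_nonneg_left ha' (by linarith : (0:ℝ) ≤ 1 - t),
    mul_le_mul_of_nonneg_left hb' h0]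

theorem inner_check : (E.all fun e =>
    (decide (12 ≤ 1 * X e.1 + 0 * Y e.1) && decide (12 ≤ 1 * X e.2 + 0 * Y e.2)) ||
    (decide (12 ≤ 0 * X e.1 + 1 * Y e.1) && decide (12 ≤ 0 * X e.2 + 1 * Y e.2)) ||
    (decide (-12 ≤ (-1) * X e.1 + (-1) * Y e.1) &&
      decide (-12 ≤ (-1) * X e.2 + (-1) * Y e.2))) = true := by decide +kernel

theorem inner_drawing : ∀ z ∈ QT, z ∉ H30.drawing := by
  rintro z ⟨h1, h2, h3⟩ hz
  obtain ⟨e, he, hz⟩ := drawing_cases hz
  have hc := List.all_eq_true.1 inner_check e he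
  simp only [Bool.or_eq_true, Bool.and_eq_true, decide_eq_true_eq] at hc
  rcases hc with (⟨ha, hb⟩ | ⟨ha, hb⟩) | ⟨ha, hb⟩
  · have := segment_ge hz ha hb
    push_cast at this
    linarith
  · have := segment_ge hz ha hb
    push_cast at this
    linarith
  · have := segment_ge hz ha hb
    push_cast at this
    linarith

theorem convex_re_lt (c : ℝ) : Convex ℝ {z : ℂ | z.re < c} :=
  convex_halfSpace_re_lt c

theorem qT_preconnected : IsPreconnected QT := by
  have h1 : Convex ℝ {z : ℂ | z.re < 12} := convex_halfSpace_re_lt 12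
  have h2 : Convex ℝ {z : ℂ | z.im < 12} := convex_halfSpace_im_lt 12
  have h3 : Convex ℝ {z : ℂ | 12 < z.re + z.im} := by
    have := convex_halfSpace_gt (𝕜 := ℝ) (f := fun z : ℂ => z.re + z.im)
      ⟨fun x y => by simp; ring, fun c x => by simp; ring⟩ (12 : ℝ)
    exact this
  exact (h1.inter (h2.inter h3)).isPreconnected

/-- points of the closed triangle are in the closure of the open one -/
theorem kT_closure {z : ℂ} (hz : z ∈ KT) : z ∈ closure QT := by
  obtain ⟨h1, h2, h3⟩ := hz
  have hseg : openSegment ℝ (⟨8, 8⟩ : ℂ) z ⊆ QT := by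
    rw [openSegment_eq_image']
    rintro _ ⟨t, ⟨h0, h1'⟩, rfl⟩
    refine ⟨?_, ?_, ?_⟩
    · simp only [Complex.add_re, Complex.real_smul, Complex.mul_re, Complex.sub_re,
        Complex.ofReal_re, Complex.ofReal_im, Complex.sub_im]
      nlinarith
    · simp only [Complex.add_im, Complex.real_smul, Complex.mul_im, Complex.sub_re,
        Complex.ofReal_re, Complex.ofReal_im, Complex.sub_im]
      nlinarith
    · simp only [Complex.add_re, Complex.real_smul, Complex.mul_re, Complex.sub_re,
        Complex.ofReal_re, Complex.ofReal_im, Complex.sub_im, Complex.add_im, Complex.mul_im]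
      nlinarith
  have h4 : z ∈ closure (openSegment ℝ (⟨8, 8⟩ : ℂ) z) := by
    rw [closure_openSegment]
    exact right_mem_segment ..
  exact closure_mono hseg h4

/-- the vertices on the medial triangle -/
def CC : List (Fin 30) := [0, 5, 10, 4, 3, 8, 2, 1, 6]

/-- the six special vertices -/
def MM : List (Fin 30) := [0, 1, 2, 3, 4, 5]

/-- vertices on the outer face -/
def OO : List (Fin 30) := [13, 18, 15, 19, 17, 20]

theorem CC_check : ∀ v ∈ CC, X v ≤ 12 ∧ Y v ≤ 12 ∧ 12 ≤ X v + Y v := by decide +kernel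

theorem inner_quasi : ((List.finRange 30).all fun u => MM.contains u ||
    (List.finRange 30).all fun v => CC.any fun x => decide (D v x ≤ D u x)) = true := by
  decide +kernel

theorem outer_quasi : (MM.all fun u =>
    (List.finRange 30).all fun v => OO.any fun x => decide (D v x ≤ D u x)) = true := by
  decide +kernel

theorem quasi_of_check {u : Fin 30} {L : List (Fin 30)}
    (h : ((List.finRange 30).all fun v => L.any fun x => decide (D v x ≤ D u x)) = true) :
    QuasiEccentric H30.graph u {v | v ∈ L} := by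
  rintro ⟨v, hv⟩
  have := List.all_eq_true.1 h v (List.mem_finRange v)
  simp only [List.any_eq_true, decide_eq_true_eq] at this
  obtain ⟨x, hx, hle⟩ := this
  have := hv x hx
  rw [dist_eq, dist_eq] at this
  omega

theorem inner_face : ∃ F, H30.IsFace F ∧ {v | v ∈ CC} ⊆ H30.bdry F := by
  refine face_of qT_preconnected ⟨⟨8, 8⟩, ?_⟩ inner_drawing _ ?_
  · refine ⟨?_, ?_, ?_⟩ <;> norm_num
  · intro v hv
    obtain ⟨h1, h2, h3⟩ := CC_check v hv
    refine kT_closure ⟨?_, ?_, ?_⟩
    · rw [posH_re]; exact_mod_cast h1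
    · rw [posH_im]; exact_mod_cast h2
    · rw [posH_re, posH_im]; exact_mod_cast h3

/-- a connected part of the outer face -/
def OUT : Set ℂ := {z | z.im < -4} ∪ {z | z.re < -4} ∪ {z | 28 < z.re + z.im}

theorem outer_check : (E.all fun e =>
    (decide (-4 ≤ 0 * X e.1 + 1 * Y e.1) && decide (-4 ≤ 0 * X e.2 + 1 * Y e.2)) &&
    (decide (-4 ≤ 1 * X e.1 + 0 * Y e.1) && decide (-4 ≤ 1 * X e.2 + 0 * Y e.2)) &&
    (decide (-28 ≤ (-1) * X e.1 + (-1) * Y e.1) &&
      decide (-28 ≤ (-1) * X e.2 + (-1) * Y e.2))) = true := by decide +kernel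

theorem outer_drawing : ∀ z ∈ OUT, z ∉ H30.drawing := by
  intro z hO hz
  obtain ⟨e, he, hz⟩ := drawing_cases hz
  have hc := List.all_eq_true.1 outer_check e he
  simp only [Bool.and_eq_true, decide_eq_true_eq] at hc
  obtain ⟨⟨⟨a1, b1⟩, ⟨a2, b2⟩⟩, ⟨a3, b3⟩⟩ := hc
  have k1 := segment_ge hz a1 b1
  have k2 := segment_ge hz a2 b2
  have k3 := segment_ge hz a3 b3
  push_cast at k1 k2 k3
  rcases hO with (h | h) | h
  · simp only [Set.mem_setOf_eq] at h
    linarith
  · simp only [Set.mem_setOf_eq] at h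
    linarith
  · simp only [Set.mem_setOf_eq] at h
    linarith

theorem outer_preconnected : IsPreconnected OUT := by
  have h1 : Convex ℝ {z : ℂ | z.im < -4} := convex_halfSpace_im_lt (-4)
  have h2 : Convex ℝ {z : ℂ | z.re < -4} := convex_halfSpace_re_lt (-4)
  have h3 : Convex ℝ {z : ℂ | 28 < z.re + z.im} := by
    have := convex_halfSpace_gt (𝕜 := ℝ) (f := fun z : ℂ => z.re + z.im)
      ⟨fun x y => by simp; ring, fun c x => by simp; ring⟩ (28 : ℝ)
    exact this
  have h12 : IsPreconnected ({z : ℂ | z.im < -4} ∪ {z | z.re < -4}) :=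
    IsPreconnected.union (⟨-5, -5⟩ : ℂ) (by simp; norm_num) (by simp; norm_num)
      h1.isPreconnected h2.isPreconnected
  refine IsPreconnected.union (⟨100, -5⟩ : ℂ) (Or.inl ?_) ?_ h12 h3.isPreconnected
  · simp; norm_num
  · simp; norm_num

theorem mem_closure_of_dir {U : Set ℂ} {z w : ℂ}
    (h : ∀ t : ℝ, 0 < t → z + (t : ℂ) * w ∈ U) : z ∈ closure U := by
  have hc : Filter.Tendsto (fun t : ℝ => z + (t : ℂ) * w) (nhdsWithin 0 (Set.Ioi 0))
      (nhds z) := by
    have : Continuous fun t : ℝ => z + (t : ℂ) * w := by fun_prop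
    have h0 := this.tendsto 0
    simp only [Complex.ofReal_zero, zero_mul, add_zero] at h0
    exact h0.mono_left nhdsWithin_le_nhds
  refine mem_closure_of_tendsto hc ?_
  filter_upwards [self_mem_nhdsWithin] with t ht
  exact h t ht

theorem outer_face : ∃ F, H30.IsFace F ∧ {v | v ∈ OO} ⊆ H30.bdry F := by
  refine face_of outer_preconnected ⟨⟨0, -5⟩, Or.inl (Or.inl ?_)⟩ outer_drawing _ ?_
  · simp only [Set.mem_setOf_eq]; norm_num
  · intro v hv
    simp only [OO, List.mem_cons, List.not_mem_nil, or_false, Set.mem_setOf_eq] at hv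
    rcases hv with rfl | rfl | rfl | rfl | rfl | rfl
    · refine mem_closure_of_dir (w := -Complex.I) fun t ht => Or.inl (Or.inl ?_)
      simp [posH, X, Y]; linarith
    · refine mem_closure_of_dir (w := -Complex.I) fun t ht => Or.inl (Or.inl ?_)
      simp [posH, X, Y]; linarith
    · refine mem_closure_of_dir (w := 1) fun t ht => Or.inr ?_
      simp [posH, X, Y]; linarith
    · refine mem_closure_of_dir (w := 1) fun t ht => Or.inr ?_
      simp [posH, X, Y]; linarith
    · refine mem_closure_of_dir (w := -1) fun t ht => Or.inl (Or.inr ?_)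
      simp [posH, X, Y]; linarith
    · refine mem_closure_of_dir (w := -1) fun t ht => Or.inl (Or.inr ?_)
      simp [posH, X, Y]; linarith

theorem H_faceCondition : FaceCondition H30 := by
  intro u
  by_cases hu : u ∈ MM
  · obtain ⟨F, hF, hS⟩ := outer_face
    exact ⟨F, hF, quasi_mono hS (quasi_of_check (List.all_eq_true.1 outer_quasi u hu))⟩
  · obtain ⟨F, hF, hS⟩ := inner_face
    refine ⟨F, hF, quasi_mono hS (quasi_of_check ?_)⟩
    have := List.all_eq_true.1 inner_quasi u (List.mem_finRange u)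
    rw [Bool.or_eq_true] at this
    rcases this with h | h
    · exact absurd (by simpa using h) hu
    · exact h

end Pool.Agent.H77.ISO
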