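import Mathlib
import Pool.Agent.H77.ISO.Defs
import Pool.Agent.H77.ISO.Cross

/-!
# Walks in plane graphs

The trace of a walk, crossing walks share a vertex, and walks that avoid the center stay in a
region.
-/

namespace Pool.Agent.H77.ISO

open unitInterval

variable {V W : Type*}

theorem endpoints_mem (G : PlaneGraph W) {x y : W} (h : G.graph.Adj x y) :
    G.pos x ∈ G.arc s(x, y) ∧ G.pos y ∈ G.arc s(x, y) := by
  obtain ⟨γ, -, -, h0, h1, hr⟩ := G.isArc x y h
  rw [← hr]
  exact ⟨⟨0, h0⟩, ⟨1, h1⟩⟩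

/-- The trace of a walk. -/
theorem exists_trace (G : PlaneGraph W) {x y : W} (p : G.graph.Walk x y) :
    ∃ f : Path (G.pos x) (G.pos y), ∀ t, f t = G.pos x ∨ ∃ e ∈ p.edges, f t ∈ G.arc e := by
  induction p with
  | nil => exact ⟨Path.refl _, fun t => Or.inl rfl⟩
  | @cons u v w h p ih =>
    obtain ⟨f, hf⟩ := ih
    obtain ⟨γ, hγ, -, h0, h1, hr⟩ := G.isArc u v h
    refine ⟨(⟨⟨γ, hγ⟩, h0, h1⟩ : Path (G.pos u) (G.pos v)).trans f, fun t => ?_⟩
    have ht : ((⟨⟨γ, hγ⟩, h0, h1⟩ : Path (G.pos u) (G.pos v)).trans f) t ∈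
        Set.range ((⟨⟨γ, hγ⟩, h0, h1⟩ : Path (G.pos u) (G.pos v)).trans f) := ⟨t, rfl⟩
    rw [Path.trans_range] at ht
    rcases ht with ⟨s, hs⟩ | ⟨s, hs⟩
    · right
      refine ⟨s(u, v), by simp, ?_⟩
      rw [← hs, ← hr]
      exact ⟨s, rfl⟩
    · right
      rcases hf s with h' | ⟨e, he, he'⟩
      · refine ⟨s(u, v), by simp, ?_⟩
        rw [← hs, h']
        exact (endpoints_mem G h).2
      · refine ⟨e, by simp [he], ?_⟩
        rw [← hs]
        exact he'

theorem mem_support_of_mem (G : PlaneGraph W) {x y : W} (p : G.graph.Walk x y) {e : Sym2 W}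
    (he : e ∈ p.edges) {v : W} (hv : v ∈ e) : v ∈ p.support := by
  induction e using Sym2.ind with
  | _ a b =>
    rcases Sym2.mem_iff.1 hv with rfl | rfl
    · exact p.fst_mem_support_of_mem_edges he
    · exact p.snd_mem_support_of_mem_edges he

/-- Two walks whose traces meet have a common vertex. -/
theorem meet (G : PlaneGraph W) {a b c d : W} (P : G.graph.Walk a c) (Q : G.graph.Walk b d)
    {z : ℂ} (h1 : z = G.pos a ∨ ∃ e ∈ P.edges, z ∈ G.arc e)
    (h2 : z = G.pos b ∨ ∃ e ∈ Q.edges, z ∈ G.arc e) : ∃ w, w ∈ P.support ∧ w ∈ Q.support := by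
  rcases h1 with h1 | ⟨e, he, h1⟩
  · rcases h2 with h2 | ⟨f, hf, h2⟩
    · have : a = b := G.pos_injective (h1.symm.trans h2)
      subst this
      exact ⟨a, P.start_mem_support, Q.start_mem_support⟩
    · refine ⟨a, P.start_mem_support, mem_support_of_mem G Q hf ?_⟩
      exact G.arc_vertex f (Q.edges_subset_edgeSet hf) a (h1 ▸ h2)
  · rcases h2 with h2 | ⟨f, hf, h2⟩
    · refine ⟨b, mem_support_of_mem G P he ?_, Q.start_mem_support⟩
      exact G.arc_vertex e (P.edges_subset_edgeSet he) b (h2 ▸ h1)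
    · by_cases hef : e = f
      · subst hef
        obtain ⟨v, hv⟩ : ∃ v, v ∈ e := ⟨e.out.1, Sym2.out_fst_mem e⟩
        exact ⟨v, mem_support_of_mem G P he hv, mem_support_of_mem G Q hf hv⟩
      · obtain ⟨v, hv, hv', -⟩ := G.arc_inter e (P.edges_subset_edgeSet he) f
          (Q.edges_subset_edgeSet hf) hef z h1 h2
        exact ⟨v, mem_support_of_mem G P he hv, mem_support_of_mem G Q hf hv'⟩

/-- The crossing lemma for walks. -/
theorem walk_cross (G : PlaneGraph W) {a b c d : W} (P : G.graph.Walk a c) (Q : G.graph.Walk b d)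
    {D : Set ℂ} (hPa : G.pos a ∈ D) (hPe : ∀ e ∈ P.edges, G.arc e ⊆ D) (hQb : G.pos b ∈ D)
    (hQe : ∀ e ∈ Q.edges, G.arc e ⊆ D) {na nb nc nd : ℂ}
    (hna : na ≠ 0) (hnb : nb ≠ 0) (hnc : nc ≠ 0) (hnd : nd ≠ 0)
    (Ha : ∀ y ∈ D, 0 ≤ ((G.pos a - y) / na).re) (Hb : ∀ y ∈ D, 0 ≤ ((y - G.pos b) / nb).re)
    (Hc : ∀ y ∈ D, 0 ≤ ((G.pos c - y) / nc).re) (Hd : ∀ y ∈ D, 0 ≤ ((y - G.pos d) / nd).re)
    (s1 : 0 < ((G.pos a - G.pos d) * (starRingEnd ℂ) (G.pos a - G.pos b)).im)
    (s2 : 0 < ((G.pos c - G.pos d) * (starRingEnd ℂ) (G.pos a - G.pos d)).im)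
    (s3 : 0 < ((G.pos c - G.pos b) * (starRingEnd ℂ) (G.pos c - G.pos d)).im)
    (s4 : 0 < ((G.pos a - G.pos b) * (starRingEnd ℂ) (G.pos c - G.pos b)).im) :
    ∃ w, w ∈ P.support ∧ w ∈ Q.support := by
  obtain ⟨f, hf⟩ := exists_trace G P
  obtain ⟨g, hg⟩ := exists_trace G Q
  obtain ⟨s, t, hst⟩ := cross (D := D) f.continuous g.continuous
    (fun s => by
      rcases hf s with h | ⟨e, he, h⟩
      · rw [h]; exact hPa
      · exact hPe e he h)
    (fun s => by
      rcases hg s with h | ⟨e, he, h⟩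
      · rw [h]; exact hQb
      · exact hQe e he h)
    f.source f.target g.source g.target hna hnb hnc hnd Ha Hb Hc Hd s1 s2 s3 s4
  exact meet G P Q (hf s) (hst ▸ hg t)

/-- A preconnected set that meets an open set and avoids its frontier lies in it. -/
theorem subset_of_frontier {S R : Set ℂ} (hS : IsPreconnected S) (hR : IsOpen R)
    (h1 : (S ∩ R).Nonempty) (h2 : ∀ z ∈ S, z ∉ frontier R) : S ⊆ R := by
  intro z hz
  by_contra hzR
  obtain ⟨w, hwS, hw1, hw2⟩ := hS R (closure R)ᶜ hR isClosed_closure.isOpen_compl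
    (fun w hw => by
      by_cases h : w ∈ closure R
      · left
        by_contra hwR
        exact h2 w hw ⟨h, fun h' => hwR (interior_subset h')⟩
      · exact Or.inr h) h1
    ⟨z, hz, fun h => h2 z hz ⟨h, fun h' => hzR (interior_subset h')⟩⟩
  exact hw2 (subset_closure hw1)

theorem arc_subset_closure (G : PlaneGraph W) {R S : Set ℂ} (hR : IsOpen R)
    (hS : frontier R ⊆ S) {x y : W} (h : G.graph.Adj x y) (hx : G.pos x ∈ R)
    (hd : ∀ z ∈ G.arc s(x, y), z ∈ S → z = G.pos y) : G.arc s(x, y) ⊆ closure R := by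
  obtain ⟨γ, hγ, hi, h0, h1, hr⟩ := G.isArc x y h
  have hpre : IsPreconnected (γ '' Set.Iio 1) := isPreconnected_Iio.image _ hγ.continuousOn
  have h01 : (0 : I) < 1 := zero_lt_one
  have hsub : γ '' Set.Iio 1 ⊆ R := by
    refine subset_of_frontier hpre hR ⟨γ 0, ⟨0, h01, rfl⟩, h0 ▸ hx⟩ ?_
    rintro _ ⟨t, ht, rfl⟩ hfr
    have := hd (γ t) (hr ▸ ⟨t, rfl⟩) (hS hfr)
    rw [← h1] at this
    exact absurd (hi this) (ne_of_lt ht)
  rw [← hr]
  rintro _ ⟨t, rfl⟩
  rcases eq_or_lt_of_le (le_one' : t ≤ 1) with rfl | ht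
  · have hcl : (1 : I) ∈ closure (Set.Iio (1 : I)) := by
      have hn : (Set.Iio (1 : I)).Nonempty := ⟨0, h01⟩
      rw [closure_Iio' hn]
      exact Set.self_mem_Iic
    exact closure_mono hsub (image_closure_subset_closure_image hγ ⟨1, hcl, rfl⟩)
  · exact subset_closure (hsub ⟨t, ht, rfl⟩)

variable {H : PlaneGraph V} {G : PlaneGraph W} {ι : V → W}

theorem edge_disjoint (hI : IsIsometricCenter H G ι) {x y : W} (h : G.graph.Adj x y)
    (hx : x ∉ Set.range ι) {z : ℂ} (hz : z ∈ G.arc s(x, y)) (hzH : z ∈ H.drawing) :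
    z = G.pos y ∧ y ∈ Set.range ι := by
  rcases hzH with ⟨v, rfl⟩ | hzH
  · rw [← hI.pos_eq v] at hz
    have := G.arc_vertex _ h (ι v) hz
    rcases Sym2.mem_iff.1 this with h' | h'
    · exact absurd ⟨v, h'⟩ hx
    · exact ⟨by rw [← hI.pos_eq v, h'], ⟨v, h'⟩⟩
  · simp only [Set.mem_iUnion] at hzH
    obtain ⟨e, he, hze⟩ := hzH
    induction e using Sym2.ind with
    | _ a b =>
      have hab : H.graph.Adj a b := he
      rw [← hI.arc_eq a b hab] at hze
      have hab' : G.graph.Adj (ι a) (ι b) := (hI.adj_iff a b).2 hab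
      have hne : s(x, y) ≠ s(ι a, ι b) := by
        intro heq
        have hxm : x ∈ s(ι a, ι b) := heq ▸ Sym2.mem_mk_left x y
        rcases Sym2.mem_iff.1 hxm with h' | h'
        · exact hx ⟨a, h'.symm⟩
        · exact hx ⟨b, h'.symm⟩
      obtain ⟨v, hv1, hv2, hv3⟩ := G.arc_inter _ h _ hab' hne z hz hze
      have hvr : v ∈ Set.range ι := by
        rcases Sym2.mem_iff.1 hv2 with h' | h'
        · exact ⟨a, h'.symm⟩
        · exact ⟨b, h'.symm⟩
      rcases Sym2.mem_iff.1 hv1 with h' | h'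
      · exact absurd (h' ▸ hvr) hx
      · exact ⟨by rw [← hv3, h'], h' ▸ hvr⟩

theorem pos_not_mem (hI : IsIsometricCenter H G ι) {x : W} (hx : x ∉ Set.range ι) :
    G.pos x ∉ H.drawing := by
  rintro (⟨v, hv⟩ | hzH)
  · rw [← hI.pos_eq v] at hv
    exact hx ⟨v, G.pos_injective hv⟩
  · simp only [Set.mem_iUnion] at hzH
    obtain ⟨e, he, hze⟩ := hzH
    induction e using Sym2.ind with
    | _ a b =>
      have hab : H.graph.Adj a b := he
      rw [← hI.arc_eq a b hab] at hze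
      have hab' : G.graph.Adj (ι a) (ι b) := (hI.adj_iff a b).2 hab
      rcases Sym2.mem_iff.1 (G.arc_vertex _ hab' x hze) with h' | h'
      · exact hx ⟨a, h'.symm⟩
      · exact hx ⟨b, h'.symm⟩

/-- A path that avoids the center before its last vertex stays in the closure of a region. -/
theorem region_walk (hI : IsIsometricCenter H G ι) {R : Set ℂ} (hR : IsOpen R)
    (hfr : frontier R ⊆ H.drawing) {x y : W} (p : G.graph.Walk x y) (hp : p.IsPath)
    (hv : ∀ w ∈ p.support, w ∈ Set.range ι → w = y) (hx : x ∉ Set.range ι)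
    (hxR : G.pos x ∈ R) : G.pos y ∈ closure R ∧ ∀ e ∈ p.edges, G.arc e ⊆ closure R := by
  induction p with
  | nil => exact ⟨subset_closure hxR, by simp⟩
  | @cons u v w h p ih =>
    have hedge : G.arc s(u, v) ⊆ closure R := by
      refine arc_subset_closure G hR hfr h hxR fun z hz hzH => ?_
      exact (edge_disjoint hI h hx hz hzH).1
    have hvcl : G.pos v ∈ closure R := hedge (endpoints_mem G h).2
    rw [SimpleGraph.Walk.cons_isPath_iff] at hp
    by_cases hvr : v ∈ Set.range ι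
    · have hvw : v = w := hv v (by simp) hvr
      subst hvw
      have hnil : p = SimpleGraph.Walk.nil :=
        SimpleGraph.Walk.nil_iff_eq_nil.1 (SimpleGraph.Walk.isPath_iff_nil.1 hp.1)
      subst hnil
      refine ⟨hvcl, fun e he => ?_⟩
      simp only [SimpleGraph.Walk.edges_cons, SimpleGraph.Walk.edges_nil,
        List.mem_singleton] at he
      subst he
      exact hedge
    · have hvR : G.pos v ∈ R := by
        by_contra hn
        exact pos_not_mem hI hvr (hfr ⟨hvcl, fun h' => hn (interior_subset h')⟩)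
      obtain ⟨h1, h2⟩ := ih hp.1 (fun a ha => hv a (by simp [ha])) hvr hvR
      refine ⟨h1, fun e he => ?_⟩
      rw [SimpleGraph.Walk.edges_cons, List.mem_cons] at he
      rcases he with rfl | he
      · exact hedge
      · exact h2 e he

/-- `q` is visible from `x`: some geodesic from `x` to `ι q` meets the center only in `ι q`. -/
def Vis (G : PlaneGraph W) (ι : V → W) (x : W) (q : V) : Prop :=
  ∃ p : G.graph.Walk x (ι q), p.IsPath ∧ p.length = G.graph.dist x (ι q) ∧
    ∀ w ∈ p.support, w ∈ Set.range ι → w = ι q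

theorem split_walk (G : PlaneGraph W) (ι : V → W) {x y : W} (p : G.graph.Walk x y)
    (hy : y ∈ Set.range ι) : ∃ q, ∃ p1 : G.graph.Walk x (ι q), ∃ p2 : G.graph.Walk (ι q) y,
      p1.length + p2.length = p.length ∧ ∀ w ∈ p1.support, w ∈ Set.range ι → w = ι q := by
  induction p with
  | nil =>
    obtain ⟨q, rfl⟩ := hy
    exact ⟨q, SimpleGraph.Walk.nil, SimpleGraph.Walk.nil, rfl, by simp⟩
  | @cons u v w h p ih =>
    by_cases hu : u ∈ Set.range ι
    · obtain ⟨q, rfl⟩ := hu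
      exact ⟨q, SimpleGraph.Walk.nil, SimpleGraph.Walk.cons h p, by simp, by simp⟩
    · obtain ⟨q, p1, p2, h1, h2⟩ := ih hy
      refine ⟨q, SimpleGraph.Walk.cons h p1, p2, ?_, ?_⟩
      · simp only [SimpleGraph.Walk.length_cons]
        omega
      · intro a ha har
        rw [SimpleGraph.Walk.support_cons, List.mem_cons] at ha
        rcases ha with rfl | ha
        · exact absurd har hu
        · exact h2 a ha har

theorem exists_vis (hI : IsIsometricCenter H G ι) (hG : G.graph.Connected) (x : W) (v : V) :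
    ∃ q, Vis G ι x q ∧
      G.graph.dist x (ι v) = G.graph.dist x (ι q) + H.graph.dist q v := by
  obtain ⟨p, hp⟩ := hG.exists_walk_length_eq_dist x (ι v)
  obtain ⟨q, p1, p2, h1, h2⟩ := split_walk G ι p ⟨v, rfl⟩
  have e1 : G.graph.dist x (ι q) ≤ p1.length := SimpleGraph.dist_le p1
  have e2 : G.graph.dist (ι q) (ι v) ≤ p2.length := SimpleGraph.dist_le p2
  have e3 := hG.dist_triangle (u := x) (v := ι q) (w := ι v)
  have e4 : p1.length = G.graph.dist x (ι q) := by omega
  refine ⟨q, ⟨p1, p1.isPath_of_length_eq_dist e4, e4, h2⟩, ?_⟩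
  rw [← hI.isometric q v]
  omega

end Pool.Agent.H77.ISO
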