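import Mathlib
import Pool.Agent.H77.ISO.Walk
import Pool.Agent.H77.ISO.Face

/-!
# H is not an isometric center
-/

namespace Pool.Agent.H77.ISO

theorem metric_lemma {W : Type*} (d : W → W → ℕ) (hs : ∀ a b, d a b = d b a)
    (ht : ∀ a b c, d a c ≤ d a b + d b c) {x1 x2 x3 s1 s2 s3 a b c : W}
    (h1 : d x1 a + d a c + d c s1 = d x1 s1 ∨ d x1 c + d c a + d a s1 = d x1 s1)
    (h2 : d x2 a + d a b + d b s2 = d x2 s2 ∨ d x2 b + d b a + d a s2 = d x2 s2)
    (h3 : d x3 b + d b c + d c s3 = d x3 s3 ∨ d x3 c + d c b + d b s3 = d x3 s3) :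
    d x2 s1 + d x3 s2 + d x1 s3 ≤ d x1 s1 + d x2 s2 + d x3 s3 := by
  have ht' : ∀ x p q s, d x s ≤ d x p + d p q + d q s := fun x p q s =>
    (ht x q s).trans (Nat.add_le_add_right (ht x p q) _)
  have t1 := ht x2 a s1
  have t2 := ht' x2 a c s1
  have t3 := ht' x2 b a s1
  have t4 := ht' x2 b c s1
  have t5 := ht x3 b s2
  have t6 := ht' x3 b a s2
  have t7 := ht' x3 c b s2
  have t8 := ht' x3 c a s2
  have t9 := ht x1 c s3
  have t10 := ht' x1 c b s3
  have t11 := ht' x1 a c s3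
  have t12 := ht' x1 a b s3
  have u1 := ht a b c
  have u2 := ht b a c
  have u3 := ht a c b
  have c1 := hs a b
  have c2 := hs b c
  have c3 := hs a c
  rcases h1 with h1 | h1 <;> rcases h2 with h2 | h2 <;> rcases h3 with h3 | h3 <;> omega

section walks

variable {W : Type*} {Γ : SimpleGraph W}

theorem geo_one (hG : Γ.Connected) {x s w : W} (p : Γ.Walk x s) (hw : w ∈ p.support) :
    Γ.dist x w + Γ.dist w s ≤ p.length := by
  classical
  have h := congrArg SimpleGraph.Walk.length (p.take_spec hw)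
  rw [SimpleGraph.Walk.length_append] at h
  have h1 := SimpleGraph.dist_le (p.takeUntil w hw)
  have h2 := SimpleGraph.dist_le (p.dropUntil w hw)
  omega

theorem geo_two (hG : Γ.Connected) {x s w w' : W} (p : Γ.Walk x s) (hp : p.length = Γ.dist x s)
    (hw : w ∈ p.support) (hw' : w' ∈ p.support) :
    Γ.dist x w + Γ.dist w w' + Γ.dist w' s = Γ.dist x s ∨
      Γ.dist x w' + Γ.dist w' w + Γ.dist w s = Γ.dist x s := by
  classical
  have h := congrArg SimpleGraph.Walk.length (p.take_spec hw)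
  rw [SimpleGraph.Walk.length_append] at h
  have h1 := SimpleGraph.dist_le (p.takeUntil w hw)
  have h2 := SimpleGraph.dist_le (p.dropUntil w hw)
  have h3 : w' ∈ (p.takeUntil w hw).support ∨ w' ∈ (p.dropUntil w hw).support := by
    rw [← SimpleGraph.Walk.mem_support_append_iff, p.take_spec hw]
    exact hw'
  rcases h3 with h3 | h3
  · right
    have h4 := geo_one hG _ h3
    have h5 := hG.dist_triangle (u := x) (v := w') (w := w)
    have h6 := hG.dist_triangle (u := x) (v := w) (w := s)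
    omega
  · left
    have h4 := geo_one hG _ h3
    have h5 := hG.dist_triangle (u := w) (v := w') (w := s)
    have h6 := hG.dist_triangle (u := x) (v := w) (w := s)
    omega

theorem four_point (hG : Γ.Connected) {x y p q w : W} (g : Γ.Walk x p) (h : Γ.Walk y q)
    (hg : g.length = Γ.dist x p) (hh : h.length = Γ.dist y q)
    (hw : w ∈ g.support) (hw' : w ∈ h.support) :
    Γ.dist x q + Γ.dist y p ≤ Γ.dist x p + Γ.dist y q := by
  have h1 := geo_one hG g hw
  have h2 := geo_one hG h hw'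
  have h3 := hG.dist_triangle (u := x) (v := w) (w := q)
  have h4 := hG.dist_triangle (u := y) (v := w) (w := p)
  omega

end walks

variable {W : Type*} {G : PlaneGraph W} {ι : Fin 30 → W}

/-- The marker lemma. -/
theorem marker (hI : IsIsometricCenter H30 G ι) (hG : G.graph.Connected) {α : ℕ}
    (hα : ∀ v w, G.graph.dist w (ι v) ≤ α) {x : W} {u : Fin 30} (m : Fin 30)
    (hx : G.graph.dist x (ι u) = α) (hxr : x ∉ Set.range ι) {R : Set ℂ} (hR : IsOpen R)
    (hfr : frontier R ⊆ H30.drawing) (hxR : G.pos x ∈ R) :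
    ∃ q, Vis G ι x q ∧ posH q ∈ closure R ∧ D q m ≤ D q u ∧
      G.graph.dist x (ι q) + D q m ≤ α := by
  obtain ⟨q, hq, hd⟩ := exists_vis hI hG x m
  have hclo : posH q ∈ closure R := by
    obtain ⟨p, hp, -, hv⟩ := hq
    have := (region_walk hI hR hfr p hp hv hxr hxR).1
    rwa [hI.pos_eq] at this
  have h1 := hα m x
  have h2 := hG.dist_triangle (u := x) (v := ι q) (w := ι u)
  rw [hI.isometric q u, dist_eq] at h2
  rw [dist_eq] at hd
  exact ⟨q, hq, hclo, by omega, by omega⟩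

/-- What we need to know about a source. -/
structure Source (G : PlaneGraph W) (ι : Fin 30 → W) (α : ℕ) (x : W) (u s z : Fin 30) :
    Prop where
  out : x ∉ Set.range ι
  inT : G.pos x ∈ QT
  vs : Vis G ι x s
  vz : Vis G ι x z
  ds : G.graph.dist x (ι s) + 3 = α
  dz : G.graph.dist x (ι z) + 4 = α
  low : ∀ q, α ≤ G.graph.dist x (ι q) + D q u

theorem source (hI : IsIsometricCenter H30 G ι) (hG : G.graph.Connected) {α : ℕ}
    (hα : ∀ v w, G.graph.dist w (ι v) ≤ α) {x : W} {u m m' s z : Fin 30}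
    (hx : G.graph.dist x (ι u) = α) (hxr : x ∉ Set.range ι) {K Q U : Set ℂ} (hK : Reg K Q)
    (hU : IsOpen U) (hUK : U ⊆ KT ∪ K)
    (ha : ∀ q, posH q ∈ K → ¬ D q m' ≤ D q u)
    (hb : ∀ q, posH q ∉ U → ¬ D q m ≤ D q u)
    (hc : ∀ q, posH q ∈ KT → D q m ≤ D q u → q = s)
    (hd : ∀ q, posH q ∈ KT → D q m' ≤ D q u → q = z)
    (e1 : D s m = 3) (e2 : D z m' = 4) (e3 : D s u = 3) (e4 : D z u = 4) :
    Source G ι α x u s z := by
  have hlow : ∀ q, α ≤ G.graph.dist x (ι q) + D q u := by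
    intro q
    have h2 := hG.dist_triangle (u := x) (v := ι q) (w := ι u)
    rw [hI.isometric q u, dist_eq] at h2
    omega
  have hT : G.pos x ∈ QT := by
    rcases three_cases hK (pos_not_mem hI hxr) with h | h | h
    · exact h
    · exfalso
      obtain ⟨q, -, h1, h2, -⟩ := marker hI hG hα m' hx hxr hK.isOpen hK.frontier_sub h
      exact ha q (hK.closure_sub h1) h2
    · exfalso
      obtain ⟨q, -, h1, h2, -⟩ := marker hI hG hα m hx hxr (out_isOpen hK) (out_frontier hK) h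
      exact hb q (out_closure hU hUK h1) h2
  obtain ⟨q, h1, h2, h3, h4⟩ := marker hI hG hα m hx hxr regT.isOpen regT.frontier_sub hT
  obtain ⟨q', h1', h2', h3', h4'⟩ := marker hI hG hα m' hx hxr regT.isOpen regT.frontier_sub hT
  have hq := hc q (regT.closure_sub h2) h3
  have hq' := hd q' (regT.closure_sub h2') h3'
  subst hq hq'
  have l1 := hlow q
  have l2 := hlow q'
  exact ⟨hxr, hT, h1, h1', by omega, by omega, hlow⟩

theorem vis_walk (hI : IsIsometricCenter H30 G ι) {x : W} (hxr : x ∉ Set.range ι)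
    (hT : G.pos x ∈ QT) {q : Fin 30} (h : Vis G ι x q) :
    ∃ p : G.graph.Walk x (ι q), p.length = G.graph.dist x (ι q) ∧
      (∀ e ∈ p.edges, G.arc e ⊆ KT) ∧ G.pos (ι q) ∈ KT := by
  obtain ⟨p, hp, hl, hv⟩ := h
  have := region_walk hI regT.isOpen regT.frontier_sub p hp hv hxr hT
  exact ⟨p, hl, fun e he => (this.2 e he).trans regT.closure_sub, regT.closure_sub this.1⟩

/-- Two sources whose geodesics must cross. -/
theorem cross_sources (hI : IsIsometricCenter H30 G ι) (hG : G.graph.Connected) {α : ℕ}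
    {x1 x2 : W} {u1 s1 z1 u2 s2 z2 : Fin 30} (S1 : Source G ι α x1 u1 s1 z1)
    (S2 : Source G ι α x2 u2 s2 z2)
    (g1 : G.graph.Walk x1 (ι s1)) (l1 : g1.length = G.graph.dist x1 (ι s1))
    (k1 : ∀ e ∈ g1.edges, G.arc e ⊆ KT)
    (g2 : G.graph.Walk x2 (ι s2)) (l2 : g2.length = G.graph.dist x2 (ι s2))
    (k2 : ∀ e ∈ g2.edges, G.arc e ⊆ KT)
    (n1 : D z2 u1 + D s1 u2 < 7) (n2 : D s2 u1 + D z1 u2 < 7) (n3 : D z2 u1 + D z1 u2 < 8)
    (hs1 : posH s1 ∈ KT) (hs2 : posH s2 ∈ KT)
    {na nb nc nd : ℂ} (hna : na ≠ 0) (hnb : nb ≠ 0) (hnc : nc ≠ 0) (hnd : nd ≠ 0)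
    (Ha : ∀ y ∈ KT, 0 ≤ ((posH s1 - y) / na).re) (Hb : ∀ y ∈ KT, 0 ≤ ((y - posH s2) / nb).re)
    (Hc : ∀ y ∈ KT, 0 ≤ ((posH z1 - y) / nc).re) (Hd : ∀ y ∈ KT, 0 ≤ ((y - posH z2) / nd).re)
    (c1 : 0 < ((posH s1 - posH z2) * (starRingEnd ℂ) (posH s1 - posH s2)).im)
    (c2 : 0 < ((posH z1 - posH z2) * (starRingEnd ℂ) (posH s1 - posH z2)).im)
    (c3 : 0 < ((posH z1 - posH s2) * (starRingEnd ℂ) (posH z1 - posH z2)).im)
    (c4 : 0 < ((posH s1 - posH s2) * (starRingEnd ℂ) (posH z1 - posH s2)).im) :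
    ∃ w, w ∈ g1.support ∧ w ∈ g2.support := by
  obtain ⟨f1, m1, o1, -⟩ := vis_walk hI S1.out S1.inT S1.vz
  obtain ⟨f2, m2, o2, -⟩ := vis_walk hI S2.out S2.inT S2.vz
  have hpos : ∀ v, G.pos (ι v) = posH v := hI.pos_eq
  obtain ⟨w, hw1, hw2⟩ := walk_cross G (g1.reverse.append f1) (g2.reverse.append f2) (D := KT)
    (by rw [hpos]; exact hs1)
    (by
      intro e he
      rw [SimpleGraph.Walk.edges_append, List.mem_append, SimpleGraph.Walk.edges_reverse,
        List.mem_reverse] at he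
      exact he.elim (k1 e) (o1 e))
    (by rw [hpos]; exact hs2)
    (by
      intro e he
      rw [SimpleGraph.Walk.edges_append, List.mem_append, SimpleGraph.Walk.edges_reverse,
        List.mem_reverse] at he
      exact he.elim (k2 e) (o2 e))
    hna hnb hnc hnd (by simpa only [hpos] using Ha) (by simpa only [hpos] using Hb)
    (by simpa only [hpos] using Hc) (by simpa only [hpos] using Hd)
    (by simpa only [hpos] using c1) (by simpa only [hpos] using c2)
    (by simpa only [hpos] using c3) (by simpa only [hpos] using c4)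
  rw [SimpleGraph.Walk.mem_support_append_iff, SimpleGraph.Walk.support_reverse,
    List.mem_reverse] at hw1 hw2
  have d1 := S1.ds
  have d2 := S1.dz
  have d3 := S2.ds
  have d4 := S2.dz
  rcases hw1 with hw1 | hw1 <;> rcases hw2 with hw2 | hw2
  · exact ⟨w, hw1, hw2⟩
  · exfalso
    have h := four_point hG g1 f2 l1 m2 hw1 hw2
    have e1 := S1.low z2
    have e2 := S2.low s1
    omega
  · exfalso
    have h := four_point hG f1 g2 m1 l2 hw1 hw2
    have e1 := S1.low s2
    have e2 := S2.low z1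
    omega
  · exfalso
    have h := four_point hG f1 f2 m1 m2 hw1 hw2
    have e1 := S1.low z2
    have e2 := S2.low z1
    omega

end Pool.Agent.H77.ISO
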