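import Mathlib
import Pool.Agent.H77.ISO.Main

/-!
# The final contradiction
-/

namespace Pool.Agent.H77.ISO

variable {W : Type*} {G : PlaneGraph W} {ι : Fin 30 → W}

theorem chkA1 : ∀ q : Fin 30, 0 ≤ X q → 0 ≤ Y q → X q + Y q ≤ 12 → ¬ D q 13 ≤ D q 12 := by
  decide +kernel
theorem chkA2 : ∀ q : Fin 30, D q 21 ≤ D q 12 → 0 < X q ∧ X q < 12 ∧ 0 < Y q ∧ Y q < 12 := by
  decide +kernel
theorem chkA3 : ∀ q : Fin 30, X q ≤ 12 → Y q ≤ 12 → 12 ≤ X q + Y q → D q 21 ≤ D q 12 →
    q = 0 := by decide +kernel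
theorem chkA4 : ∀ q : Fin 30, X q ≤ 12 → Y q ≤ 12 → 12 ≤ X q + Y q → D q 13 ≤ D q 12 →
    q = 8 := by decide +kernel
theorem chkB1 : ∀ q : Fin 30, 12 ≤ X q → 0 ≤ Y q → X q + Y q ≤ 24 → ¬ D q 15 ≤ D q 14 := by
  decide +kernel
theorem chkB2 : ∀ q : Fin 30, D q 22 ≤ D q 14 → 0 < Y q ∧ Y q < 12 ∧ 12 < X q + Y q ∧
    X q + Y q < 24 := by decide +kernel
theorem chkB3 : ∀ q : Fin 30, X q ≤ 12 → Y q ≤ 12 → 12 ≤ X q + Y q → D q 22 ≤ D q 14 →
    q = 2 := by decide +kernel
theorem chkB4 : ∀ q : Fin 30, X q ≤ 12 → Y q ≤ 12 → 12 ≤ X q + Y q → D q 15 ≤ D q 14 →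
    q = 10 := by decide +kernel
theorem chkC1 : ∀ q : Fin 30, 0 ≤ X q → 12 ≤ Y q → X q + Y q ≤ 24 → ¬ D q 17 ≤ D q 16 := by
  decide +kernel
theorem chkC2 : ∀ q : Fin 30, D q 23 ≤ D q 16 → 0 < X q ∧ X q < 12 ∧ 12 < X q + Y q ∧
    X q + Y q < 24 := by decide +kernel
theorem chkC3 : ∀ q : Fin 30, X q ≤ 12 → Y q ≤ 12 → 12 ≤ X q + Y q → D q 23 ≤ D q 16 →
    q = 4 := by decide +kernel
theorem chkC4 : ∀ q : Fin 30, X q ≤ 12 → Y q ≤ 12 → 12 ≤ X q + Y q → D q 17 ≤ D q 16 →
    q = 6 := by decide +kernel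

theorem posKT {q : Fin 30} (h : posH q ∈ KT) : X q ≤ 12 ∧ Y q ≤ 12 ∧ 12 ≤ X q + Y q := by
  obtain ⟨h1, h2, h3⟩ := h
  rw [posH_re] at h1 h3
  rw [posH_im] at h2 h3
  exact ⟨by exact_mod_cast h1, by exact_mod_cast h2, by exact_mod_cast h3⟩

/-- open sets covered by the triangles -/
def UA : Set ℂ := {z | 0 < z.re ∧ z.re < 12 ∧ 0 < z.im ∧ z.im < 12}
/-- open sets covered by the triangles -/
def UB : Set ℂ := {z | 0 < z.im ∧ z.im < 12 ∧ 12 < z.re + z.im ∧ z.re + z.im < 24}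
/-- open sets covered by the triangles -/
def UC : Set ℂ := {z | 0 < z.re ∧ z.re < 12 ∧ 12 < z.re + z.im ∧ z.re + z.im < 24}

theorem sourceA (hI : IsIsometricCenter H30 G ι) (hG : G.graph.Connected) {α : ℕ}
    (hα : ∀ v w, G.graph.dist w (ι v) ≤ α) {x : W}
    (hx : G.graph.dist x (ι 12) = α) (hxr : x ∉ Set.range ι) : Source G ι α x 12 0 8 := by
  have c1 := Complex.continuous_re
  have c2 := Complex.continuous_im
  refine source hI hG hα (m := 21) (m' := 13) hx hxr regA (U := UA) ?_ ?_ ?_ ?_ ?_ ?_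
    (by decide +kernel) (by decide +kernel) (by decide +kernel) (by decide +kernel)
  · exact (isOpen_lt continuous_const c1).inter ((isOpen_lt c1 continuous_const).inter
      ((isOpen_lt continuous_const c2).inter (isOpen_lt c2 continuous_const)))
  · rintro z ⟨h1, h2, h3, h4⟩
    rcases le_total (z.re + z.im) 12 with h | h
    · exact Or.inr ⟨h1.le, h3.le, h⟩
    · exact Or.inl ⟨h2.le, h4.le, h⟩
  · rintro q ⟨h1, h2, h3⟩
    rw [posH_re] at h1 h3
    rw [posH_im] at h2 h3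
    exact chkA1 q (by exact_mod_cast h1) (by exact_mod_cast h2) (by exact_mod_cast h3)
  · intro q hq h
    obtain ⟨h1, h2, h3, h4⟩ := chkA2 q h
    refine hq ⟨?_, ?_, ?_, ?_⟩
    · rw [posH_re]; exact_mod_cast h1
    · rw [posH_re]; exact_mod_cast h2
    · rw [posH_im]; exact_mod_cast h3
    · rw [posH_im]; exact_mod_cast h4
  · intro q hq h
    obtain ⟨h1, h2, h3⟩ := posKT hq
    exact chkA3 q h1 h2 h3 h
  · intro q hq h
    obtain ⟨h1, h2, h3⟩ := posKT hq
    exact chkA4 q h1 h2 h3 h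

theorem sourceB (hI : IsIsometricCenter H30 G ι) (hG : G.graph.Connected) {α : ℕ}
    (hα : ∀ v w, G.graph.dist w (ι v) ≤ α) {x : W}
    (hx : G.graph.dist x (ι 14) = α) (hxr : x ∉ Set.range ι) : Source G ι α x 14 2 10 := by
  have c1 := Complex.continuous_re
  have c2 := Complex.continuous_im
  refine source hI hG hα (m := 22) (m' := 15) hx hxr regB (U := UB) ?_ ?_ ?_ ?_ ?_ ?_
    (by decide +kernel) (by decide +kernel) (by decide +kernel) (by decide +kernel)
  · exact (isOpen_lt continuous_const c2).inter ((isOpen_lt c2 continuous_const).inter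
      ((isOpen_lt continuous_const (c1.add c2)).inter (isOpen_lt (c1.add c2) continuous_const)))
  · rintro z ⟨h1, h2, h3, h4⟩
    rcases le_total z.re 12 with h | h
    · exact Or.inl ⟨h, h2.le, h3.le⟩
    · exact Or.inr ⟨h, h1.le, h4.le⟩
  · rintro q ⟨h1, h2, h3⟩
    rw [posH_re] at h1 h3
    rw [posH_im] at h2 h3
    exact chkB1 q (by exact_mod_cast h1) (by exact_mod_cast h2) (by exact_mod_cast h3)
  · intro q hq h
    obtain ⟨h1, h2, h3, h4⟩ := chkB2 q h
    refine hq ⟨?_, ?_, ?_, ?_⟩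
    · rw [posH_im]; exact_mod_cast h1
    · rw [posH_im]; exact_mod_cast h2
    · rw [posH_re, posH_im]; exact_mod_cast h3
    · rw [posH_re, posH_im]; exact_mod_cast h4
  · intro q hq h
    obtain ⟨h1, h2, h3⟩ := posKT hq
    exact chkB3 q h1 h2 h3 h
  · intro q hq h
    obtain ⟨h1, h2, h3⟩ := posKT hq
    exact chkB4 q h1 h2 h3 h

theorem sourceC (hI : IsIsometricCenter H30 G ι) (hG : G.graph.Connected) {α : ℕ}
    (hα : ∀ v w, G.graph.dist w (ι v) ≤ α) {x : W}
    (hx : G.graph.dist x (ι 16) = α) (hxr : x ∉ Set.range ι) : Source G ι α x 16 4 6 := by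
  have c1 := Complex.continuous_re
  have c2 := Complex.continuous_im
  refine source hI hG hα (m := 23) (m' := 17) hx hxr regC (U := UC) ?_ ?_ ?_ ?_ ?_ ?_
    (by decide +kernel) (by decide +kernel) (by decide +kernel) (by decide +kernel)
  · exact (isOpen_lt continuous_const c1).inter ((isOpen_lt c1 continuous_const).inter
      ((isOpen_lt continuous_const (c1.add c2)).inter (isOpen_lt (c1.add c2) continuous_const)))
  · rintro z ⟨h1, h2, h3, h4⟩
    rcases le_total z.im 12 with h | h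
    · exact Or.inl ⟨h2.le, h, h3.le⟩
    · exact Or.inr ⟨h1.le, h, h4.le⟩
  · rintro q ⟨h1, h2, h3⟩
    rw [posH_re] at h1 h3
    rw [posH_im] at h2 h3
    exact chkC1 q (by exact_mod_cast h1) (by exact_mod_cast h2) (by exact_mod_cast h3)
  · intro q hq h
    obtain ⟨h1, h2, h3, h4⟩ := chkC2 q h
    refine hq ⟨?_, ?_, ?_, ?_⟩
    · rw [posH_re]; exact_mod_cast h1
    · rw [posH_re]; exact_mod_cast h2
    · rw [posH_re, posH_im]; exact_mod_cast h3
    · rw [posH_re, posH_im]; exact_mod_cast h4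
  · intro q hq h
    obtain ⟨h1, h2, h3⟩ := posKT hq
    exact chkC3 q h1 h2 h3 h
  · intro q hq h
    obtain ⟨h1, h2, h3⟩ := posKT hq
    exact chkC4 q h1 h2 h3 h

theorem mem_KT_of {q : Fin 30} (h : X q ≤ 12 ∧ Y q ≤ 12 ∧ 12 ≤ X q + Y q) : posH q ∈ KT := by
  obtain ⟨h1, h2, h3⟩ := h
  refine ⟨?_, ?_, ?_⟩
  · rw [posH_re]; exact_mod_cast h1
  · rw [posH_im]; exact_mod_cast h2
  · rw [posH_re, posH_im]; exact_mod_cast h3

theorem D_six : D 6 27 = 6 := by decide +kernel

theorem ecc_small : ∀ v : Fin 30, D 12 v ≤ 5 ∧ D 14 v ≤ 5 ∧ D 16 v ≤ 5 := by decide +kernel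

theorem re_div {a b : ℂ} : (a / b).re = (a.re * b.re + a.im * b.im) / Complex.normSq b := by
  rw [Complex.div_re]; ring

theorem not_center [Finite W] (hG : G.graph.Connected)
    (hI : IsIsometricCenter H30 G ι) : False := by
  have : Nonempty W := ⟨ι 0⟩
  have hrad : G.graph.radius ≠ ⊤ := SimpleGraph.radius_ne_top_iff.2 hG
  have hecc : ∀ v, G.graph.eccent (ι v) = G.graph.radius := fun v => by
    have : ι v ∈ G.graph.center := by rw [hI.center]; exact ⟨v, rfl⟩
    exact (SimpleGraph.mem_center_iff _).1 this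
  set α : ℕ := G.graph.radius.toNat with hαdef
  have hα : ∀ v w, G.graph.dist w (ι v) ≤ α := by
    intro v w
    rw [SimpleGraph.dist_comm]
    have h1 : G.graph.edist (ι v) w ≤ G.graph.radius :=
      (SimpleGraph.edist_le_eccent).trans (hecc v).le
    exact ENat.toNat_le_toNat h1 hrad
  have hex : ∀ v, ∃ x, G.graph.dist x (ι v) = α := by
    intro v
    obtain ⟨x, hx⟩ := SimpleGraph.exists_edist_eq_eccent_of_finite (G := G.graph) (ι v)
    refine ⟨x, ?_⟩
    rw [SimpleGraph.dist_comm, SimpleGraph.dist, hx, hecc v]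
  have h6 : 6 ≤ α := by
    have := hα 27 (ι 6)
    rw [hI.isometric, dist_eq, D_six] at this
    exact this
  have hout : ∀ v x, G.graph.dist x (ι v) = α → (∀ w, D v w ≤ 5) → x ∉ Set.range ι := by
    rintro v _ hx hv ⟨w, rfl⟩
    rw [SimpleGraph.dist_comm, hI.isometric, dist_eq] at hx
    have := hv w
    omega
  obtain ⟨x1, hx1⟩ := hex 12
  obtain ⟨x2, hx2⟩ := hex 14
  obtain ⟨x3, hx3⟩ := hex 16
  have S1 := sourceA hI hG hα hx1 (hout _ _ hx1 fun w => (ecc_small w).1)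
  have S2 := sourceB hI hG hα hx2 (hout _ _ hx2 fun w => (ecc_small w).2.1)
  have S3 := sourceC hI hG hα hx3 (hout _ _ hx3 fun w => (ecc_small w).2.2)
  obtain ⟨g1, l1, k1, -⟩ := vis_walk hI S1.out S1.inT S1.vs
  obtain ⟨g2, l2, k2, -⟩ := vis_walk hI S2.out S2.inT S2.vs
  obtain ⟨g3, l3, k3, -⟩ := vis_walk hI S3.out S3.inT S3.vs
  obtain ⟨a, a1, a2⟩ := cross_sources hI hG S1 S2 g1 l1 k1 g2 l2 k2
    (by decide +kernel) (by decide +kernel) (by decide +kernel)
    (mem_KT_of (by decide +kernel)) (mem_KT_of (by decide +kernel))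
    (na := ⟨-1, -1⟩) (nb := ⟨-1, 0⟩) (nc := ⟨1, 1⟩) (nd := ⟨1, 0⟩)
    (by simp [Complex.ext_iff]) (by simp [Complex.ext_iff]) (by simp [Complex.ext_iff])
    (by simp [Complex.ext_iff])
    (fun y hy => by
      rw [re_div]; apply div_nonneg _ (Complex.normSq_nonneg _)
      obtain ⟨h1, h2, h3⟩ := hy; simp [posH, X, Y]; linarith)
    (fun y hy => by
      rw [re_div]; apply div_nonneg _ (Complex.normSq_nonneg _)
      obtain ⟨h1, h2, h3⟩ := hy; simp [posH, X, Y]; linarith)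
    (fun y hy => by
      rw [re_div]; apply div_nonneg _ (Complex.normSq_nonneg _)
      obtain ⟨h1, h2, h3⟩ := hy; simp [posH, X, Y]; linarith)
    (fun y hy => by
      rw [re_div]; apply div_nonneg _ (Complex.normSq_nonneg _)
      obtain ⟨h1, h2, h3⟩ := hy; simp [posH, X, Y]; linarith)
    (by simp [posH, X, Y] <;> norm_num) (by simp [posH, X, Y] <;> norm_num)
    (by simp [posH, X, Y] <;> norm_num) (by simp [posH, X, Y] <;> norm_num)
  obtain ⟨b, b1, b2⟩ := cross_sources hI hG S2 S3 g2 l2 k2 g3 l3 k3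
    (by decide +kernel) (by decide +kernel) (by decide +kernel)
    (mem_KT_of (by decide +kernel)) (mem_KT_of (by decide +kernel))
    (na := ⟨1, 0⟩) (nb := ⟨0, -1⟩) (nc := ⟨-1, 0⟩) (nd := ⟨-1, 1⟩)
    (by simp [Complex.ext_iff]) (by simp [Complex.ext_iff]) (by simp [Complex.ext_iff])
    (by simp [Complex.ext_iff])
    (fun y hy => by
      rw [re_div]; apply div_nonneg _ (Complex.normSq_nonneg _)
      obtain ⟨h1, h2, h3⟩ := hy; simp [posH, X, Y]; linarith)
    (fun y hy => by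
      rw [re_div]; apply div_nonneg _ (Complex.normSq_nonneg _)
      obtain ⟨h1, h2, h3⟩ := hy; simp [posH, X, Y]; linarith)
    (fun y hy => by
      rw [re_div]; apply div_nonneg _ (Complex.normSq_nonneg _)
      obtain ⟨h1, h2, h3⟩ := hy; simp [posH, X, Y]; linarith)
    (fun y hy => by
      rw [re_div]; apply div_nonneg _ (Complex.normSq_nonneg _)
      obtain ⟨h1, h2, h3⟩ := hy; simp [posH, X, Y]; linarith)
    (by simp [posH, X, Y] <;> norm_num) (by simp [posH, X, Y] <;> norm_num)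
    (by simp [posH, X, Y] <;> norm_num) (by simp [posH, X, Y] <;> norm_num)
  obtain ⟨c, c1, c2⟩ := cross_sources hI hG S3 S1 g3 l3 k3 g1 l1 k1
    (by decide +kernel) (by decide +kernel) (by decide +kernel)
    (mem_KT_of (by decide +kernel)) (mem_KT_of (by decide +kernel))
    (na := ⟨0, 1⟩) (nb := ⟨1, 1⟩) (nc := ⟨0, -1⟩) (nd := ⟨-1, -1⟩)
    (by simp [Complex.ext_iff]) (by simp [Complex.ext_iff]) (by simp [Complex.ext_iff])
    (by simp [Complex.ext_iff])
    (fun y hy => by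
      rw [re_div]; apply div_nonneg _ (Complex.normSq_nonneg _)
      obtain ⟨h1, h2, h3⟩ := hy; simp [posH, X, Y]; linarith)
    (fun y hy => by
      rw [re_div]; apply div_nonneg _ (Complex.normSq_nonneg _)
      obtain ⟨h1, h2, h3⟩ := hy; simp [posH, X, Y]; linarith)
    (fun y hy => by
      rw [re_div]; apply div_nonneg _ (Complex.normSq_nonneg _)
      obtain ⟨h1, h2, h3⟩ := hy; simp [posH, X, Y]; linarith)
    (fun y hy => by
      rw [re_div]; apply div_nonneg _ (Complex.normSq_nonneg _)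
      obtain ⟨h1, h2, h3⟩ := hy; simp [posH, X, Y]; linarith)
    (by simp [posH, X, Y] <;> norm_num) (by simp [posH, X, Y] <;> norm_num)
    (by simp [posH, X, Y] <;> norm_num) (by simp [posH, X, Y] <;> norm_num)
  have e1 := geo_two hG g1 l1 a1 c2
  have e2 := geo_two hG g2 l2 a2 b1
  have e3 := geo_two hG g3 l3 b2 c1
  have key := metric_lemma G.graph.dist (fun a b => SimpleGraph.dist_comm)
    (fun a b c => hG.dist_triangle) e1 e2 e3
  have f1 := S1.ds
  have f2 := S2.ds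
  have f3 := S3.ds
  have m1 := S2.low 0
  have m2 := S3.low 2
  have m3 := S1.low 4
  have q1 : D 0 14 = 2 := by decide +kernel
  have q2 : D 2 16 = 2 := by decide +kernel
  have q3 : D 4 12 = 2 := by decide +kernel
  rw [q1] at m1
  rw [q2] at m2
  rw [q3] at m3
  omega

theorem main : ∃ (V : Type) (_ : Fintype V) (H : PlaneGraph V), TwoConnected H.graph ∧
    FaceCondition H ∧ ¬ ∃ (W : Type) (_ : Fintype W) (G : PlaneGraph W) (ι : V → W),
      G.graph.Connected ∧ IsIsometricCenter H G ι := by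
  refine ⟨Fin 30, inferInstance, H30, H_twoConnected, H_faceCondition, ?_⟩
  rintro ⟨W, _, G, ι, hG, hI⟩
  exact not_center hG hI

end Pool.Agent.H77.ISO
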